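import Mathlib

/-!
Definitions for the Sidorenko exponent of tight cycles.
-/

namespace Pool.Agent.H27.Sid

/-- `φ` is a homomorphism from the hypergraph `F` to the hypergraph `H` (given by their sets of
edges): the image of every edge of `F` is an edge of `H`. -/
def IsHom {W V : Type*} (F : Set (Set W)) (H : Set (Set V)) (φ : W → V) : Prop :=
  ∀ e ∈ F, φ '' e ∈ H

/-- The homomorphism density `hom(F, H) / v(H) ^ v(F)`. -/
noncomputable def homDensity {W V : Type*} (F : Set (Set W)) (H : Set (Set V)) : ℝ :=
  (Nat.card {φ : W → V // IsHom F H φ} : ℝ) / (Nat.card V : ℝ) ^ Nat.card W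

/-- `H` is `r`-uniform: every edge has exactly `r` elements. -/
def IsUniform (r : ℕ) {V : Type*} (H : Set (Set V)) : Prop := ∀ e ∈ H, e.ncard = r

/-- The `r`-graph with `r` vertices and a single edge. -/
def singleEdge (r : ℕ) : Set (Set (Fin r)) := {Set.univ}

/-- The tight cycle on `3 ℓ` vertices: the edges are the sets of three cyclically consecutive
vertices. -/
def tightCycle (ℓ : ℕ) : Set (Set (ZMod (3 * ℓ))) := {e | ∃ i, e = {i, i + 1, i + 2}}

/-- The Sidorenko exponent of `F`: the supremum of the `s ≥ 0` for which there is a finite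
`r`-graph `H` with `t_F(H) = t_{K_r}(H) ^ s > 0`. -/
noncomputable def sidorenkoExponent (r : ℕ) {W : Type*} (F : Set (Set W)) : ℝ :=
  sSup {s : ℝ | 0 ≤ s ∧ ∃ (V : Type) (_ : Finite V) (H : Set (Set V)), IsUniform r H ∧
    homDensity F H = homDensity (singleEdge r) H ^ s ∧ 0 < homDensity F H}

end Pool.Agent.H27.Sid
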