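import Mathlib

/-!
Entropy computations for laws on `A × (Fin 3 → V)`.
-/

open Finset

namespace Pool.Agent.H27.Sid

/-- Gibbs variational inequality -/
theorem gibbs {A : Type*} [Fintype A] (p w : A → ℝ) (hp : ∀ a, 0 ≤ p a) (hw : ∀ a, 0 ≤ w a)
    (hpw : ∀ a, 0 < p a → 0 < w a) (hsum : ∑ a, p a = 1) :
    ∑ a, p a * (Real.log (w a) - Real.log (p a)) ≤ Real.log (∑ a, w a) := by
  classical
  obtain ⟨a0, ha0⟩ : ∃ a, 0 < p a := by
    by_contra hcon
    push Not at hcon
    have : ∑ a, p a ≤ 0 := Finset.sum_nonpos fun a _ => hcon a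
    linarith
  have hW : 0 < ∑ a, w a :=
    lt_of_lt_of_le (hpw a0 ha0) (Finset.single_le_sum (fun a _ => hw a) (Finset.mem_univ a0))
  set W := ∑ a, w a with hWdef
  have key : ∀ a, p a * (Real.log (w a) - Real.log (p a)) ≤ p a * Real.log W + (w a / W - p a) := by
    intro a
    rcases (hp a).eq_or_lt with h0 | hpos
    · rw [← h0]
      have : 0 ≤ w a / W := div_nonneg (hw a) hW.le
      simpa using this
    · have hwa := hpw a hpos
      have h1 : Real.log (w a / (p a * W)) ≤ w a / (p a * W) - 1 :=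
        Real.log_le_sub_one_of_pos (by positivity)
      rw [Real.log_div hwa.ne' (by positivity), Real.log_mul hpos.ne' hW.ne'] at h1
      have h2 : p a * (Real.log (w a) - (Real.log (p a) + Real.log W)) ≤
          p a * (w a / (p a * W) - 1) := mul_le_mul_of_nonneg_left h1 hpos.le
      have h3 : p a * (w a / (p a * W) - 1) = w a / W - p a := by
        field_simp
      rw [h3] at h2
      linarith
  calc _ ≤ ∑ a, (p a * Real.log W + (w a / W - p a)) := Finset.sum_le_sum fun a _ => key a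
    _ = Real.log W := by
      rw [Finset.sum_add_distrib, ← Finset.sum_mul, hsum, Finset.sum_sub_distrib,
        ← Finset.sum_div, hsum, ← hWdef, div_self hW.ne']
      ring

variable {A V : Type*} [Fintype A] [Fintype V]

theorem sum_update (i : Fin 3) (F : (Fin 3 → V) → ℝ) :
    ∑ u, ∑ a, F (Function.update u i a) = (Fintype.card V : ℝ) * ∑ u, F u := by
  have h1 : ∑ u, ∑ a, F (Function.update u i a) =
      ∑ x : (Fin 3 → V) × V, F (Function.update x.1 i x.2) := by
    rw [Fintype.sum_prod_type]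
  have hinv : Function.Involutive
      (fun x : (Fin 3 → V) × V => (Function.update x.1 i x.2, x.1 i)) := by
    rintro ⟨u, a⟩
    simp
  have h2 : ∑ x : (Fin 3 → V) × V, F (Function.update x.1 i x.2) =
      ∑ x : (Fin 3 → V) × V, F x.1 :=
    Fintype.sum_bijective _ hinv.bijective _ _ fun x => rfl
  rw [h1, h2, Fintype.sum_prod_type]
  simp only [Finset.sum_const, Finset.card_univ, nsmul_eq_mul]
  rw [Finset.mul_sum]

/-- marginal forgetting coordinate `i` -/
noncomputable def mar (i : Fin 3) (Θ : A → (Fin 3 → V) → ℝ) (s : A) (u : Fin 3 → V) : ℝ :=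
  ∑ a, Θ s (Function.update u i a)

/-- conditional entropy of coordinate `i` -/
noncomputable def kap (i : Fin 3) (Θ : A → (Fin 3 → V) → ℝ) : ℝ :=
  ∑ s, ∑ u, Θ s u * (Real.log (mar i Θ s u) - Real.log (Θ s u))

/-- entropy -/
noncomputable def ent (Θ : A → (Fin 3 → V) → ℝ) : ℝ :=
  ∑ s, ∑ u, Θ s u * (- Real.log (Θ s u))

omit [Fintype A] in
theorem mar_update (i : Fin 3) (Θ : A → (Fin 3 → V) → ℝ) (s : A) (u : Fin 3 → V) (a : V) :
    mar i Θ s (Function.update u i a) = mar i Θ s u := by
  unfold mar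
  simp

omit [Fintype A] in
theorem class_sum (i : Fin 3) (Θ : A → (Fin 3 → V) → ℝ) (s : A) (g : (Fin 3 → V) → ℝ)
    (hg : ∀ u a, g (Function.update u i a) = g u) :
    ∑ u, mar i Θ s u * g u = (Fintype.card V : ℝ) * ∑ u, Θ s u * g u := by
  rw [← sum_update i (fun u => Θ s u * g u)]
  refine Finset.sum_congr rfl fun u _ => ?_
  unfold mar
  rw [Finset.sum_mul]
  refine Finset.sum_congr rfl fun a _ => ?_
  rw [hg]

omit [Fintype A] in
theorem mar_nonneg {i : Fin 3} {Θ : A → (Fin 3 → V) → ℝ} (h : ∀ s u, 0 ≤ Θ s u) (s : A)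
    (u : Fin 3 → V) : 0 ≤ mar i Θ s u := Finset.sum_nonneg fun _ _ => h _ _

omit [Fintype A] in
theorem le_mar {i : Fin 3} {Θ : A → (Fin 3 → V) → ℝ} (h : ∀ s u, 0 ≤ Θ s u) (s : A)
    (u : Fin 3 → V) : Θ s u ≤ mar i Θ s u := by
  unfold mar
  have := Finset.single_le_sum (f := fun a => Θ s (Function.update u i a))
    (fun a _ => h s _) (Finset.mem_univ (u i))
  simpa using this

/-- `- ∑ Θ log m ≤ log (|A| n^2)` -/
theorem neg_log_mar_le [Nonempty V] [Nonempty A] (i : Fin 3) (Θ : A → (Fin 3 → V) → ℝ)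
    (h0 : ∀ s u, 0 ≤ Θ s u) (hsum : ∑ s, ∑ u, Θ s u = 1) :
    ∑ s, ∑ u, Θ s u * (- Real.log (mar i Θ s u)) ≤
      Real.log (Fintype.card A) + 2 * Real.log (Fintype.card V) := by
  set n : ℝ := (Fintype.card V : ℝ) with hn
  set c : ℝ := (Fintype.card A : ℝ) with hc
  have hnpos : 0 < n := by rw [hn]; exact_mod_cast Fintype.card_pos
  have hcpos : 0 < c := by rw [hc]; exact_mod_cast Fintype.card_pos
  have hL : Real.log c + 2 * Real.log n = Real.log (c * n ^ 2) := by
    rw [Real.log_mul hcpos.ne' (by positivity), Real.log_pow]; norm_num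
  rw [hL]
  set K := c * n ^ 2 with hK
  have hKpos : 0 < K := by positivity
  have key : ∀ s u, Θ s u * (- Real.log (mar i Θ s u)) ≤
      Θ s u * Real.log K + (Θ s u / mar i Θ s u / K - Θ s u) := by
    intro s u
    rcases (h0 s u).eq_or_lt with h | hpos
    · rw [← h]; simp
    · have hm : 0 < mar i Θ s u := lt_of_lt_of_le hpos (le_mar h0 s u)
      have h1 : Real.log (1 / (mar i Θ s u * K)) ≤ 1 / (mar i Θ s u * K) - 1 :=
        Real.log_le_sub_one_of_pos (by positivity)
      rw [Real.log_div one_ne_zero (by positivity), Real.log_one,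
        Real.log_mul hm.ne' hKpos.ne'] at h1
      have h2 := mul_le_mul_of_nonneg_left h1 hpos.le
      have h3 : Θ s u * (1 / (mar i Θ s u * K) - 1) = Θ s u / mar i Θ s u / K - Θ s u := by
        field_simp
      rw [h3] at h2
      linarith
  have hcnt : ∑ s, ∑ u, Θ s u / mar i Θ s u ≤ K := by
    have h1 : ∀ s, ∑ u, Θ s u / mar i Θ s u ≤ n ^ 2 := by
      intro s
      have h2 : n * ∑ u, Θ s u / mar i Θ s u ≤ n ^ 3 := by
        rw [hn, ← sum_update i (fun u => Θ s u / mar i Θ s u)]
        have h3 : ∀ u : Fin 3 → V, ∑ a, Θ s (Function.update u i a) /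
            mar i Θ s (Function.update u i a) ≤ 1 := by
          intro u
          simp only [mar_update]
          rw [← Finset.sum_div]
          exact div_self_le_one _
        calc _ ≤ ∑ _u : Fin 3 → V, (1:ℝ) := Finset.sum_le_sum fun u _ => h3 u
          _ = _ := by simp
      have : n * ∑ u, Θ s u / mar i Θ s u ≤ n * n ^ 2 := by
        calc _ ≤ n ^ 3 := h2
          _ = _ := by ring
      exact le_of_mul_le_mul_left this hnpos
    calc _ ≤ ∑ _s : A, n ^ 2 := Finset.sum_le_sum fun s _ => h1 s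
      _ = K := by rw [Finset.sum_const, Finset.card_univ, nsmul_eq_mul]
  calc _ ≤ ∑ s, ∑ u, (Θ s u * Real.log K + (Θ s u / mar i Θ s u / K - Θ s u)) :=
        Finset.sum_le_sum fun s _ => Finset.sum_le_sum fun u _ => key s u
    _ = Real.log K + ((∑ s, ∑ u, Θ s u / mar i Θ s u) / K - 1) := by
        simp only [Finset.sum_add_distrib, Finset.sum_sub_distrib, ← Finset.sum_mul,
          ← Finset.sum_div, hsum]
        ring
    _ ≤ Real.log K := by
        have : (∑ s, ∑ u, Θ s u / mar i Θ s u) / K ≤ 1 := by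
          rw [div_le_one hKpos]; exact hcnt
        linarith

/-- lower bound for the conditional entropy -/
theorem kap_ge [Nonempty V] [Nonempty A] (i : Fin 3) (Θ : A → (Fin 3 → V) → ℝ)
    (h0 : ∀ s u, 0 ≤ Θ s u) (hsum : ∑ s, ∑ u, Θ s u = 1) :
    ent Θ - (Real.log (Fintype.card A) + 2 * Real.log (Fintype.card V)) ≤ kap i Θ := by
  have h := neg_log_mar_le i Θ h0 hsum
  have h2 : kap i Θ = ent Θ - ∑ s, ∑ u, Θ s u * (- Real.log (mar i Θ s u)) := by
    unfold kap ent
    rw [← Finset.sum_sub_distrib]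
    refine Finset.sum_congr rfl fun s _ => ?_
    rw [← Finset.sum_sub_distrib]
    refine Finset.sum_congr rfl fun u _ => ?_
    ring
  rw [h2]
  linarith

/-- upper bound for the entropy -/
theorem ent_le [Nonempty V] [Nonempty A] (Θ : A → (Fin 3 → V) → ℝ)
    (h0 : ∀ s u, 0 ≤ Θ s u) (hsum : ∑ s, ∑ u, Θ s u = 1) :
    ent Θ ≤ Real.log (Fintype.card A) + 3 * Real.log (Fintype.card V) := by
  have h := gibbs (fun x : A × (Fin 3 → V) => Θ x.1 x.2) (fun _ => 1) (fun x => h0 _ _)
    (fun _ => zero_le_one) (fun _ _ => one_pos) (by rw [Fintype.sum_prod_type]; exact hsum)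
  have hnpos : 0 < (Fintype.card V : ℝ) := by exact_mod_cast Fintype.card_pos
  have hcpos : 0 < (Fintype.card A : ℝ) := by exact_mod_cast Fintype.card_pos
  rw [Fintype.sum_prod_type, Fintype.sum_prod_type] at h
  have h2 : Real.log (∑ _x : A, ∑ _y : Fin 3 → V, (1:ℝ)) =
      Real.log (Fintype.card A) + 3 * Real.log (Fintype.card V) := by
    simp only [Finset.sum_const, Finset.card_univ, nsmul_eq_mul, mul_one, Fintype.card_pi,
      Finset.prod_const]
    rw [Real.log_mul hcpos.ne' (by positivity)]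
    push_cast
    rw [Real.log_pow]; norm_num
  rw [h2] at h
  refine le_trans (le_of_eq ?_) h
  unfold ent
  refine Finset.sum_congr rfl fun s _ => Finset.sum_congr rfl fun u _ => ?_
  simp

end Pool.Agent.H27.Sid
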