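import Mathlib
import Pool.Agent.H27.Sid.Ent

/-!
Gibbs updates of laws and of path counting weights.
-/

open Finset

set_option linter.unusedSectionVars false

namespace Pool.Agent.H27.Sid

variable {A V : Type*} [Fintype A] [Fintype V]

open Classical in
/-- indicator -/
noncomputable def ind (E : Set (Fin 3 → V)) (u : Fin 3 → V) : ℝ := if u ∈ E then 1 else 0

theorem ind_nonneg (E : Set (Fin 3 → V)) (u : Fin 3 → V) : 0 ≤ ind E u := by
  unfold ind; split_ifs <;> norm_num

/-- codegree -/
noncomputable def dd (E : Set (Fin 3 → V)) (i : Fin 3) (u : Fin 3 → V) : ℝ :=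
  ∑ a, ind E (Function.update u i a)

theorem dd_update (E : Set (Fin 3 → V)) (i : Fin 3) (u : Fin 3 → V) (a : V) :
    dd E i (Function.update u i a) = dd E i u := by
  unfold dd; simp

theorem one_le_dd {E : Set (Fin 3 → V)} {i : Fin 3} {u : Fin 3 → V} (h : u ∈ E) :
    1 ≤ dd E i u := by
  unfold dd
  have := Finset.single_le_sum (f := fun a => ind E (Function.update u i a))
    (fun a _ => ind_nonneg E _) (Finset.mem_univ (u i))
  have h2 : ind E (Function.update u i (u i)) = 1 := by simp [ind, h]
  simp only [h2] at this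
  exact this

/-- number of elements of `E` -/
noncomputable def cE (E : Set (Fin 3 → V)) : ℝ := ∑ u, ind E u

/-- entropy of coordinate `i` given the others for the uniform law on `E` -/
noncomputable def hh (E : Set (Fin 3 → V)) (i : Fin 3) : ℝ :=
  ∑ u, ind E u / cE E * Real.log (dd E i u)

/-- laws whose second marginal is uniform on `E` -/
structure Good (E : Set (Fin 3 → V)) (Θ : A → (Fin 3 → V) → ℝ) : Prop where
  nonneg : ∀ s u, 0 ≤ Θ s u
  marg : ∀ u, ∑ s, Θ s u = ind E u / cE E

theorem cE_pos {E : Set (Fin 3 → V)} (h : E.Nonempty) : 0 < cE E := by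
  obtain ⟨u, hu⟩ := h
  unfold cE
  have := Finset.single_le_sum (f := fun u => ind E u) (fun a _ => ind_nonneg E _)
    (Finset.mem_univ u)
  have h2 : ind E u = 1 := by simp [ind, hu]
  simp only [h2] at this
  linarith

variable {E : Set (Fin 3 → V)} {Θ : A → (Fin 3 → V) → ℝ}

theorem Good.sum (hE : E.Nonempty) (h : Good E Θ) : ∑ s, ∑ u, Θ s u = 1 := by
  rw [Finset.sum_comm, Finset.sum_congr rfl fun u _ => h.marg u, ← Finset.sum_div]
  exact div_self (cE_pos hE).ne'

theorem Good.supp (h : Good E Θ) {s : A} {u : Fin 3 → V} (hs : 0 < Θ s u) : u ∈ E := by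
  by_contra hu
  have h1 := h.marg u
  have h2 : ind E u = 0 := by simp [ind, hu]
  rw [h2, zero_div] at h1
  have h3 := (Finset.sum_eq_zero_iff_of_nonneg (fun s _ => h.nonneg s u)).mp h1 s
    (Finset.mem_univ s)
  linarith

theorem Good.eq_zero (h : Good E Θ) {s : A} {u : Fin 3 → V} (hu : u ∉ E) : Θ s u = 0 := by
  rcases (h.nonneg s u).eq_or_lt with h1 | h1
  · exact h1.symm
  · exact absurd (h.supp h1) hu

/-- lower bound for the conditional entropy of the uniform law -/
theorem hh_ge [Nonempty V] (hE : E.Nonempty) (i : Fin 3) :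
    Real.log (cE E) - 2 * Real.log (Fintype.card V) ≤ hh E i := by
  have hc := cE_pos hE
  have hg : ∀ s u, 0 ≤ (fun (_ : Unit) u => ind E u / cE E) s u := fun _ u =>
    div_nonneg (ind_nonneg E u) hc.le
  have hs : ∑ s : Unit, ∑ u, (fun (_ : Unit) u => ind E u / cE E) s u = 1 := by
    simp only [Finset.univ_unique, Finset.sum_const, Finset.card_singleton, one_smul]
    rw [← Finset.sum_div]
    exact div_self hc.ne'
  have h := kap_ge i (fun (_ : Unit) u => ind E u / cE E) hg hs
  have h1 : ent (fun (_ : Unit) (u : Fin 3 → V) => ind E u / cE E) = Real.log (cE E) := by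
    unfold ent
    have : ∀ u, ind E u / cE E * (- Real.log (ind E u / cE E)) =
        ind E u / cE E * Real.log (cE E) := by
      intro u
      by_cases hu : u ∈ E
      · have : ind E u = 1 := by simp [ind, hu]
        rw [this, Real.log_div one_ne_zero hc.ne', Real.log_one]; ring
      · have : ind E u = 0 := by simp [ind, hu]
        rw [this]; ring
    simp only [this, Finset.univ_unique, Finset.sum_const, Finset.card_singleton, one_smul]
    rw [← Finset.sum_mul, ← Finset.sum_div]
    have : (∑ u, ind E u) / cE E = 1 := div_self hc.ne'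
    rw [this, one_mul]
  have h2 : kap i (fun (_ : Unit) (u : Fin 3 → V) => ind E u / cE E) = hh E i := by
    unfold kap hh
    rw [Fintype.sum_unique]
    refine Finset.sum_congr rfl fun u _ => ?_
    change ind E u / cE E * (Real.log (mar i (fun (_ : Unit) (u : Fin 3 → V) =>
      ind E u / cE E) default u) - Real.log (ind E u / cE E)) = _
    by_cases hu : u ∈ E
    · have h3 : ind E u = 1 := by simp [ind, hu]
      have h4 : mar i (fun (_ : Unit) (u : Fin 3 → V) => ind E u / cE E) default u =
          dd E i u / cE E := by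
        unfold mar dd
        rw [Finset.sum_div]
      have h5 := one_le_dd (i := i) hu
      rw [h4, h3, Real.log_div (by linarith) hc.ne', Real.log_div one_ne_zero hc.ne',
        Real.log_one]
      ring
    · have h3 : ind E u = 0 := by simp [ind, hu]
      rw [h3]; ring
  rw [h1, h2] at h
  simpa using h

/-- Gibbs update of coordinate `i` -/
noncomputable def R (E : Set (Fin 3 → V)) (i : Fin 3) (Θ : A → (Fin 3 → V) → ℝ)
    (s : A) (u : Fin 3 → V) : ℝ := mar i Θ s u * (ind E u / dd E i u)

theorem dd_nonneg (E : Set (Fin 3 → V)) (i : Fin 3) (u : Fin 3 → V) : 0 ≤ dd E i u :=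
  Finset.sum_nonneg fun _ _ => ind_nonneg E _

theorem R_good (h : Good E Θ) (i : Fin 3) : Good E (R E i Θ) := by
  refine ⟨fun s u => mul_nonneg (mar_nonneg h.nonneg s u)
    (div_nonneg (ind_nonneg E u) (dd_nonneg E i u)), fun u => ?_⟩
  unfold R
  rw [← Finset.sum_mul]
  have h1 : ∑ s, mar i Θ s u = dd E i u / cE E := by
    unfold mar dd
    rw [Finset.sum_comm, Finset.sum_div]
    exact Finset.sum_congr rfl fun a _ => h.marg _
  rw [h1]
  by_cases hu : u ∈ E
  · have h5 := one_le_dd (i := i) hu
    have : dd E i u ≠ 0 := by linarith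
    field_simp
  · have h3 : ind E u = 0 := by simp [ind, hu]
    rw [h3]; ring

theorem mar_eq_zero (h : Good E Θ) (i : Fin 3) {s : A} {u : Fin 3 → V} (hd : dd E i u = 0) :
    mar i Θ s u = 0 := by
  unfold mar
  refine Finset.sum_eq_zero fun a _ => h.eq_zero ?_
  intro hmem
  have := one_le_dd (i := i) hmem
  rw [dd_update] at this
  linarith

theorem mar_R (h : Good E Θ) (i : Fin 3) (s : A) (u : Fin 3 → V) :
    mar i (R E i Θ) s u = mar i Θ s u := by
  have h1 : mar i (R E i Θ) s u = mar i Θ s u * (dd E i u / dd E i u) := by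
    conv_lhs => unfold mar
    unfold R
    simp only [mar_update, dd_update]
    rw [← Finset.mul_sum, ← Finset.sum_div]
    rfl
  rw [h1]
  by_cases hd : dd E i u = 0
  · rw [mar_eq_zero h i hd]; ring
  · rw [div_self hd, mul_one]

/-- class functions have the same mean before and after an update -/
theorem R_class [Nonempty V] (h : Good E Θ) (i : Fin 3) (s : A) (g : (Fin 3 → V) → ℝ)
    (hg : ∀ u a, g (Function.update u i a) = g u) :
    ∑ u, R E i Θ s u * g u = ∑ u, Θ s u * g u := by
  have hn : (Fintype.card V : ℝ) ≠ 0 := by exact_mod_cast Fintype.card_ne_zero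
  have h1 := class_sum i (R E i Θ) s g hg
  have h2 := class_sum i Θ s g hg
  have h3 : ∑ u, mar i (R E i Θ) s u * g u = ∑ u, mar i Θ s u * g u :=
    Finset.sum_congr rfl fun u _ => by rw [mar_R h]
  rw [h1, h2] at h3
  exact mul_left_cancel₀ hn h3

/-- entropy after an update -/
theorem ent_R [Nonempty V] (h : Good E Θ) (i : Fin 3) :
    ent (R E i Θ) = ent Θ - kap i Θ + hh E i := by
  have hR := R_good h i
  have key : ∀ s u, R E i Θ s u * (- Real.log (R E i Θ s u)) =
      R E i Θ s u * (- Real.log (mar i Θ s u)) + R E i Θ s u * Real.log (dd E i u) := by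
    intro s u
    rcases (hR.nonneg s u).eq_or_lt with h0 | hpos
    · rw [← h0]; ring
    · have hu := hR.supp hpos
      have h3 : ind E u = 1 := by simp [ind, hu]
      have h5 := one_le_dd (i := i) hu
      have hm : 0 < mar i Θ s u := by
        rcases (mar_nonneg (i := i) h.nonneg s u).eq_or_lt with h0 | h1
        · exfalso
          unfold R at hpos
          rw [← h0] at hpos
          simp at hpos
        · exact h1
      have h6 : Real.log (R E i Θ s u) = Real.log (mar i Θ s u) - Real.log (dd E i u) := by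
        unfold R
        rw [h3, mul_one_div, Real.log_div hm.ne' (by linarith)]
      rw [h6]; ring
  have h1 : ∑ s, ∑ u, R E i Θ s u * (- Real.log (mar i Θ s u)) =
      ∑ s, ∑ u, Θ s u * (- Real.log (mar i Θ s u)) :=
    Finset.sum_congr rfl fun s _ => R_class h i s _ fun u a => by rw [mar_update]
  have h2 : ∑ s, ∑ u, R E i Θ s u * Real.log (dd E i u) = hh E i := by
    rw [Finset.sum_comm]
    unfold hh
    refine Finset.sum_congr rfl fun u _ => ?_
    rw [← Finset.sum_mul, hR.marg]
  have h3 : kap i Θ = ent Θ - ∑ s, ∑ u, Θ s u * (- Real.log (mar i Θ s u)) := by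
    unfold kap ent
    rw [← Finset.sum_sub_distrib]
    refine Finset.sum_congr rfl fun s _ => ?_
    rw [← Finset.sum_sub_distrib]
    refine Finset.sum_congr rfl fun u _ => ?_
    ring
  have h4 : ent (R E i Θ) = ∑ s, ∑ u, R E i Θ s u * (- Real.log (mar i Θ s u)) +
      ∑ s, ∑ u, R E i Θ s u * Real.log (dd E i u) := by
    unfold ent
    rw [← Finset.sum_add_distrib]
    refine Finset.sum_congr rfl fun s _ => ?_
    rw [← Finset.sum_add_distrib]
    exact Finset.sum_congr rfl fun u _ => key s u
  rw [h4, h1, h2, h3]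
  ring

/-- appending the letter `i` to a weight -/
noncomputable def T (E : Set (Fin 3 → V)) (i : Fin 3) (N : A → (Fin 3 → V) → ℝ)
    (s : A) (u : Fin 3 → V) : ℝ :=
  ind E u * ∑ a, ind E (Function.update u i a) * N s (Function.update u i a)

/-- mean logarithm of a weight -/
noncomputable def mlog (Θ N : A → (Fin 3 → V) → ℝ) : ℝ := ∑ s, ∑ u, Θ s u * Real.log (N s u)

/-- weights that are positive on the support -/
structure Pos (Θ N : A → (Fin 3 → V) → ℝ) : Prop where
  nonneg : ∀ s u, 0 ≤ N s u
  pos : ∀ s u, 0 < Θ s u → 0 < N s u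

/-- the inner sum -/
noncomputable def G (E : Set (Fin 3 → V)) (i : Fin 3) (N : A → (Fin 3 → V) → ℝ)
    (s : A) (u : Fin 3 → V) : ℝ :=
  ∑ a, ind E (Function.update u i a) * N s (Function.update u i a)

theorem G_update (i : Fin 3) (N : A → (Fin 3 → V) → ℝ) (s : A) (u : Fin 3 → V) (a : V) :
    G E i N s (Function.update u i a) = G E i N s u := by
  unfold G; simp

theorem T_eq (i : Fin 3) (N : A → (Fin 3 → V) → ℝ) (s : A) (u : Fin 3 → V) :
    T E i N s u = ind E u * G E i N s u := rfl

theorem mlog_T_eq (h : Good E Θ) (i : Fin 3) (N : A → (Fin 3 → V) → ℝ) :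
    mlog Θ (T E i N) = ∑ s, ∑ u, Θ s u * Real.log (G E i N s u) := by
  unfold mlog
  refine Finset.sum_congr rfl fun s _ => Finset.sum_congr rfl fun u _ => ?_
  rcases (h.nonneg s u).eq_or_lt with h0 | hpos
  · rw [← h0]; ring
  · have hu := h.supp hpos
    have h3 : ind E u = 1 := by simp [ind, hu]
    rw [T_eq, h3, one_mul]

/-- the basic inequality: appending a letter gains at least the conditional entropy -/
theorem mlog_G_ge [Nonempty V] (h : Good E Θ) (i : Fin 3) {N : A → (Fin 3 → V) → ℝ}
    (hN : Pos Θ N) :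
    kap i Θ + mlog Θ N ≤ ∑ s, ∑ u, Θ s u * Real.log (G E i N s u) := by
  have hn : (0:ℝ) < (Fintype.card V : ℝ) := by exact_mod_cast Fintype.card_pos
  have key : ∀ s u, ∑ a, Θ s (Function.update u i a) *
      (Real.log (mar i Θ s u) - Real.log (Θ s (Function.update u i a)) +
        Real.log (N s (Function.update u i a))) ≤ mar i Θ s u * Real.log (G E i N s u) := by
    intro s u
    rcases (mar_nonneg (i := i) h.nonneg s u).eq_or_lt with h0 | hm
    · rw [← h0, zero_mul]
      refine le_of_eq (Finset.sum_eq_zero fun a _ => ?_)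
      have : Θ s (Function.update u i a) = 0 := by
        have h1 := le_mar (i := i) h.nonneg s (Function.update u i a)
        rw [mar_update, ← h0] at h1
        exact le_antisymm h1 (h.nonneg _ _)
      rw [this, zero_mul]
    · set m := mar i Θ s u with hmdef
      have hg := gibbs (fun a => Θ s (Function.update u i a) / m)
        (fun a => ind E (Function.update u i a) * N s (Function.update u i a))
        (fun a => div_nonneg (h.nonneg _ _) hm.le)
        (fun a => mul_nonneg (ind_nonneg E _) (hN.nonneg _ _))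
        (fun a ha => by
          have h1 : 0 < Θ s (Function.update u i a) := by
            rcases (h.nonneg s (Function.update u i a)).eq_or_lt with h0 | h0
            · rw [← h0] at ha; simp at ha
            · exact h0
          have h2 := h.supp h1
          have h3 : ind E (Function.update u i a) = 1 := by simp [ind, h2]
          rw [h3, one_mul]
          exact hN.pos _ _ h1)
        (by rw [← Finset.sum_div]; exact div_self hm.ne')
      have h4 := mul_le_mul_of_nonneg_left hg hm.le
      refine le_trans (le_of_eq ?_) h4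
      rw [Finset.mul_sum]
      refine Finset.sum_congr rfl fun a _ => ?_
      rcases (h.nonneg s (Function.update u i a)).eq_or_lt with h0 | hpos
      · rw [← h0]; simp
      · have h2 := h.supp hpos
        have h3 : ind E (Function.update u i a) = 1 := by simp [ind, h2]
        rw [h3, one_mul, Real.log_div hpos.ne' hm.ne']
        field_simp
        ring
  have hsum : ∀ s, (Fintype.card V : ℝ) * ∑ u, Θ s u *
      (Real.log (mar i Θ s u) - Real.log (Θ s u) + Real.log (N s u)) ≤
      (Fintype.card V : ℝ) * ∑ u, Θ s u * Real.log (G E i N s u) := by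
    intro s
    rw [← class_sum i Θ s (fun u => Real.log (G E i N s u)) (fun u a => by rw [G_update]),
      ← sum_update i (fun u => Θ s u *
        (Real.log (mar i Θ s u) - Real.log (Θ s u) + Real.log (N s u)))]
    refine Finset.sum_le_sum fun u _ => ?_
    simp only [mar_update]
    exact key s u
  have h1 : kap i Θ + mlog Θ N = ∑ s, ∑ u, Θ s u *
      (Real.log (mar i Θ s u) - Real.log (Θ s u) + Real.log (N s u)) := by
    unfold kap mlog
    rw [← Finset.sum_add_distrib]
    refine Finset.sum_congr rfl fun s _ => ?_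
    rw [← Finset.sum_add_distrib]
    refine Finset.sum_congr rfl fun u _ => ?_
    ring
  rw [h1]
  exact Finset.sum_le_sum fun s _ => le_of_mul_le_mul_left (hsum s) hn

theorem T_pos_fake (h : Good E Θ) (i : Fin 3) {N : A → (Fin 3 → V) → ℝ} (hN : Pos Θ N) :
    Pos Θ (T E i N) := by
  refine ⟨fun s u => mul_nonneg (ind_nonneg E u) (Finset.sum_nonneg fun a _ =>
    mul_nonneg (ind_nonneg E _) (hN.nonneg _ _)), fun s u hpos => ?_⟩
  have hu := h.supp hpos
  have h3 : ind E u = 1 := by simp [ind, hu]
  rw [T_eq, h3, one_mul]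
  unfold G
  have h4 := Finset.single_le_sum
    (f := fun a => ind E (Function.update u i a) * N s (Function.update u i a))
    (fun a _ => mul_nonneg (ind_nonneg E _) (hN.nonneg _ _)) (Finset.mem_univ (u i))
  simp only [Function.update_eq_self, h3, one_mul] at h4
  exact lt_of_lt_of_le (hN.pos s u hpos) h4

theorem T_pos_real (h : Good E Θ) (i : Fin 3) {N : A → (Fin 3 → V) → ℝ} (hN : Pos Θ N) :
    Pos (R E i Θ) (T E i N) := by
  refine ⟨(T_pos_fake h i hN).nonneg, fun s u hpos => ?_⟩
  have hu := (R_good h i).supp hpos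
  have h3 : ind E u = 1 := by simp [ind, hu]
  rw [T_eq, h3, one_mul]
  have hm : 0 < mar i Θ s u := by
    rcases (mar_nonneg (i := i) h.nonneg s u).eq_or_lt with h0 | h1
    · exfalso
      unfold R at hpos
      rw [← h0] at hpos
      simp at hpos
    · exact h1
  obtain ⟨a, ha⟩ : ∃ a, 0 < Θ s (Function.update u i a) := by
    by_contra hcon
    push Not at hcon
    unfold mar at hm
    have : ∑ a, Θ s (Function.update u i a) ≤ 0 := Finset.sum_nonpos fun a _ => hcon a
    linarith
  have hua := h.supp ha
  have h5 : ind E (Function.update u i a) = 1 := by simp [ind, hua]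
  unfold G
  have h4 := Finset.single_le_sum
    (f := fun a => ind E (Function.update u i a) * N s (Function.update u i a))
    (fun a _ => mul_nonneg (ind_nonneg E _) (hN.nonneg _ _)) (Finset.mem_univ a)
  simp only [h5, one_mul] at h4
  exact lt_of_lt_of_le (hN.pos s _ ha) h4

theorem mlog_fake [Nonempty V] (h : Good E Θ) (i : Fin 3) {N : A → (Fin 3 → V) → ℝ}
    (hN : Pos Θ N) : kap i Θ + mlog Θ N ≤ mlog Θ (T E i N) := by
  rw [mlog_T_eq h]
  exact mlog_G_ge h i hN

theorem mlog_real [Nonempty V] (h : Good E Θ) (i : Fin 3) {N : A → (Fin 3 → V) → ℝ}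
    (hN : Pos Θ N) : kap i Θ + mlog Θ N ≤ mlog (R E i Θ) (T E i N) := by
  rw [mlog_T_eq (R_good h i)]
  have : ∑ s, ∑ u, R E i Θ s u * Real.log (G E i N s u) =
      ∑ s, ∑ u, Θ s u * Real.log (G E i N s u) :=
    Finset.sum_congr rfl fun s _ => R_class h i s _ fun u a => by rw [G_update]
  rw [this]
  exact mlog_G_ge h i hN

end Pool.Agent.H27.Sid
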