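import Mathlib
import Pool.Agent.H27.Sid.Step

/-!
The greedy iteration.
-/

open Finset

set_option linter.unusedSectionVars false

namespace Pool.Agent.H27.Sid

variable {V : Type*} [Fintype V]

/-- append the block `0 1 2` -/
noncomputable def fwd (E : Set (Fin 3 → V)) (N : (Fin 3 → V) → (Fin 3 → V) → ℝ) :
    (Fin 3 → V) → (Fin 3 → V) → ℝ := T E 2 (T E 1 (T E 0 N))

/-- append the block `2 1 0` -/
noncomputable def bwd (E : Set (Fin 3 → V)) (N : (Fin 3 → V) → (Fin 3 → V) → ℝ) :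
    (Fin 3 → V) → (Fin 3 → V) → ℝ := T E 0 (T E 1 (T E 2 N))

variable {E : Set (Fin 3 → V)} {Θ N : (Fin 3 → V) → (Fin 3 → V) → ℝ}

theorem fake_fwd [Nonempty V] (h : Good E Θ) (hN : Pos Θ N) {L : ℝ} (hL : ∀ i, L ≤ kap i Θ) :
    Pos Θ (fwd E N) ∧ 3 * L + mlog Θ N ≤ mlog Θ (fwd E N) := by
  have p0 := T_pos_fake h 0 hN
  have p1 := T_pos_fake h 1 p0
  have p2 := T_pos_fake h 2 p1
  have m0 := mlog_fake h 0 hN
  have m1 := mlog_fake h 1 p0
  have m2 := mlog_fake h 2 p1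
  refine ⟨p2, ?_⟩
  have := hL 0
  have := hL 1
  have := hL 2
  unfold fwd
  linarith

theorem fake_bwd [Nonempty V] (h : Good E Θ) (hN : Pos Θ N) {L : ℝ} (hL : ∀ i, L ≤ kap i Θ) :
    Pos Θ (bwd E N) ∧ 3 * L + mlog Θ N ≤ mlog Θ (bwd E N) := by
  have p0 := T_pos_fake h 2 hN
  have p1 := T_pos_fake h 1 p0
  have p2 := T_pos_fake h 0 p1
  have m0 := mlog_fake h 2 hN
  have m1 := mlog_fake h 1 p0
  have m2 := mlog_fake h 0 p1
  refine ⟨p2, ?_⟩
  have := hL 0
  have := hL 1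
  have := hL 2
  unfold bwd
  linarith

theorem real_fwd [Nonempty V] (h : Good E Θ) (hN : Pos Θ N) {L : ℝ} (i : Fin 3)
    (hL : ∀ i, L ≤ kap i Θ) (hL' : ∀ j, L ≤ kap j (R E i Θ)) :
    Pos (R E i Θ) (fwd E N) ∧ 3 * L + mlog Θ N ≤ mlog (R E i Θ) (fwd E N) := by
  have hR := R_good h i
  have a0 := hL 0
  have a1 := hL 1
  have a2 := hL 2
  have b0 := hL' 0
  have b1 := hL' 1
  have b2 := hL' 2
  fin_cases i
  · have p0 := T_pos_real h 0 hN
    have m0 := mlog_real h 0 hN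
    have p1 := T_pos_fake hR 1 p0
    have p2 := T_pos_fake hR 2 p1
    have m1 := mlog_fake hR 1 p0
    have m2 := mlog_fake hR 2 p1
    refine ⟨p2, ?_⟩
    unfold fwd
    simp only [Fin.zero_eta] at *
    linarith
  · have p0 := T_pos_fake h 0 hN
    have m0 := mlog_fake h 0 hN
    have p1 := T_pos_real h 1 p0
    have m1 := mlog_real h 1 p0
    have p2 := T_pos_fake hR 2 p1
    have m2 := mlog_fake hR 2 p1
    refine ⟨p2, ?_⟩
    unfold fwd
    simp only [Fin.mk_one] at *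
    linarith
  · have p0 := T_pos_fake h 0 hN
    have m0 := mlog_fake h 0 hN
    have p1 := T_pos_fake h 1 p0
    have m1 := mlog_fake h 1 p0
    have p2 := T_pos_real h 2 p1
    have m2 := mlog_real h 2 p1
    refine ⟨p2, ?_⟩
    unfold fwd
    simp only [Fin.reduceFinMk] at *
    linarith

theorem real_bwd [Nonempty V] (h : Good E Θ) (hN : Pos Θ N) {L : ℝ} (i : Fin 3)
    (hL : ∀ i, L ≤ kap i Θ) (hL' : ∀ j, L ≤ kap j (R E i Θ)) :
    Pos (R E i Θ) (bwd E N) ∧ 3 * L + mlog Θ N ≤ mlog (R E i Θ) (bwd E N) := by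
  have hR := R_good h i
  have a0 := hL 0
  have a1 := hL 1
  have a2 := hL 2
  have b0 := hL' 0
  have b1 := hL' 1
  have b2 := hL' 2
  fin_cases i
  · have p0 := T_pos_fake h 2 hN
    have m0 := mlog_fake h 2 hN
    have p1 := T_pos_fake h 1 p0
    have m1 := mlog_fake h 1 p0
    have p2 := T_pos_real h 0 p1
    have m2 := mlog_real h 0 p1
    refine ⟨p2, ?_⟩
    unfold bwd
    simp only [Fin.zero_eta] at *
    linarith
  · have p0 := T_pos_fake h 2 hN
    have m0 := mlog_fake h 2 hN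
    have p1 := T_pos_real h 1 p0
    have m1 := mlog_real h 1 p0
    have p2 := T_pos_fake hR 0 p1
    have m2 := mlog_fake hR 0 p1
    refine ⟨p2, ?_⟩
    unfold bwd
    simp only [Fin.mk_one] at *
    linarith
  · have p0 := T_pos_real h 2 hN
    have m0 := mlog_real h 2 hN
    have p1 := T_pos_fake hR 1 p0
    have p2 := T_pos_fake hR 0 p1
    have m1 := mlog_fake hR 1 p0
    have m2 := mlog_fake hR 0 p1
    refine ⟨p2, ?_⟩
    unfold bwd
    simp only [Fin.reduceFinMk] at *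
    linarith

/-- conditional entropies are at least `ent - 5 h` -/
theorem kap_ge' [Nonempty V] (hE : E.Nonempty) (h : Good E Θ) (i : Fin 3) :
    ent Θ - 5 * Real.log (Fintype.card V) ≤ kap i Θ := by
  have h1 := kap_ge i Θ h.nonneg (h.sum hE)
  have h2 : Real.log (Fintype.card (Fin 3 → V)) = 3 * Real.log (Fintype.card V) := by
    simp only [Fintype.card_pi, Finset.prod_const, Finset.card_univ, Fintype.card_fin]
    push_cast
    rw [Real.log_pow]; norm_num
  rw [h2] at h1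
  linarith

theorem ent_le' [Nonempty V] (hE : E.Nonempty) (h : Good E Θ) :
    ent Θ ≤ 6 * Real.log (Fintype.card V) := by
  have h1 := ent_le Θ h.nonneg (h.sum hE)
  have h2 : Real.log (Fintype.card (Fin 3 → V)) = 3 * Real.log (Fintype.card V) := by
    simp only [Fintype.card_pi, Finset.prod_const, Finset.card_univ, Fintype.card_fin]
    push_cast
    rw [Real.log_pow]; norm_num
  rw [h2] at h1
  linarith

/-- the greedy iteration -/
theorem greedy [Nonempty V] (hE : E.Nonempty) {l D η : ℝ}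
    (hl : l = Real.log (Fintype.card V)) (hD : D = 3 * l - Real.log (cE E)) (hη : 0 ≤ η * D)
    (Θ₀ Np Nm : (Fin 3 → V) → (Fin 3 → V) → ℝ) (h0 : Good E Θ₀) (he : 6 * l - 8 * D ≤ ent Θ₀)
    (hp : Pos Θ₀ Np) (hm : Pos Θ₀ Nm) (j : ℕ) :
    ∃ Θ, Good E Θ ∧ 6 * l - 8 * D ≤ ent Θ ∧
      (6 * l - 8 * D + j * (η * D) ≤ ent Θ ∨ ∀ i, l - (1 + η) * D ≤ kap i Θ) ∧
      Pos Θ ((fwd E)^[j] Np) ∧ Pos Θ ((bwd E)^[j] Nm) ∧
      j * (3 * (l - 8 * D)) + mlog Θ₀ Np ≤ mlog Θ ((fwd E)^[j] Np) ∧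
      j * (3 * (l - 8 * D)) + mlog Θ₀ Nm ≤ mlog Θ ((bwd E)^[j] Nm) := by
  induction j with
  | zero =>
    refine ⟨Θ₀, h0, he, Or.inl (by simpa using he), hp, hm, ?_, ?_⟩ <;> simp
  | succ j ih =>
    obtain ⟨Θ, hg, hent, halt, hpp, hpm, hlp, hlm⟩ := ih
    have hL : ∀ i, l - 8 * D ≤ kap i Θ := fun i => by
      have := kap_ge' hE hg i
      rw [← hl] at this
      linarith
    by_cases hall : ∀ i, l - (1 + η) * D ≤ kap i Θ
    · obtain ⟨q1, q2⟩ := fake_fwd hg hpp hL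
      obtain ⟨q3, q4⟩ := fake_bwd hg hpm hL
      refine ⟨Θ, hg, hent, Or.inr hall, ?_, ?_, ?_, ?_⟩
      · rw [Function.iterate_succ_apply']; exact q1
      · rw [Function.iterate_succ_apply']; exact q3
      · rw [Function.iterate_succ_apply']; push_cast; linarith
      · rw [Function.iterate_succ_apply']; push_cast; linarith
    · push Not at hall
      obtain ⟨i, hi⟩ := hall
      have halt' : 6 * l - 8 * D + j * (η * D) ≤ ent Θ := by
        rcases halt with h | h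
        · exact h
        · exact absurd (h i) (not_le.mpr hi)
      have hR := R_good hg i
      have hentR : ent Θ + η * D ≤ ent (R E i Θ) := by
        rw [ent_R hg i]
        have := hh_ge hE i
        rw [← hl] at this
        linarith
      have hentR' : 6 * l - 8 * D ≤ ent (R E i Θ) := by linarith
      have hL' : ∀ j, l - 8 * D ≤ kap j (R E i Θ) := fun j => by
        have := kap_ge' hE hR j
        rw [← hl] at this
        linarith
      obtain ⟨q1, q2⟩ := real_fwd hg hpp i hL hL'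
      obtain ⟨q3, q4⟩ := real_bwd hg hpm i hL hL'
      refine ⟨R E i Θ, hR, hentR', Or.inl ?_, ?_, ?_, ?_, ?_⟩
      · push_cast; linarith
      · rw [Function.iterate_succ_apply']; exact q1
      · rw [Function.iterate_succ_apply']; exact q3
      · rw [Function.iterate_succ_apply']; push_cast; linarith
      · rw [Function.iterate_succ_apply']; push_cast; linarith

/-- long runs at the optimal rate -/
theorem longrun [Nonempty V] {L : ℝ} (h : Good E Θ) (hN : Pos Θ N) (hL : ∀ i, L ≤ kap i Θ)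
    (m : ℕ) : Pos Θ ((bwd E)^[m] N) ∧ m * (3 * L) + mlog Θ N ≤ mlog Θ ((bwd E)^[m] N) := by
  induction m with
  | zero => exact ⟨hN, by simp⟩
  | succ m ih =>
    obtain ⟨q1, q2⟩ := fake_bwd h ih.1 hL
    refine ⟨?_, ?_⟩
    · rw [Function.iterate_succ_apply']; exact q1
    · rw [Function.iterate_succ_apply']; push_cast; linarith [ih.2]

/-- the main lower bound -/
theorem main_bound [Nonempty V] (hE : E.Nonempty) {l D η : ℝ}
    (hl : l = Real.log (Fintype.card V)) (hD : D = 3 * l - Real.log (cE E)) (hη : 0 < η)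
    (hDpos : 0 < D)
    (Θ₀ Np Nm : (Fin 3 → V) → (Fin 3 → V) → ℝ) (h0 : Good E Θ₀) (he : 6 * l - 8 * D ≤ ent Θ₀)
    (hp : Pos Θ₀ Np) (hm : Pos Θ₀ Nm) (hp0 : 0 ≤ mlog Θ₀ Np) (hm0 : 0 ≤ mlog Θ₀ Nm)
    (J : ℕ) (hJ : 8 < J * η) (m : ℕ) :
    6 * l - 8 * D + 2 * (J * (3 * (l - 8 * D))) + m * (3 * (l - (1 + η) * D)) ≤
      Real.log (∑ s, ∑ u, ((fwd E)^[J] Np) s u * ((bwd E)^[m + J] Nm) s u) := by
  obtain ⟨Θ, hg, hent, halt, hpp, hpm, hlp, hlm⟩ :=
    greedy (η := η) hE hl hD (mul_pos hη hDpos).le Θ₀ Np Nm h0 he hp hm J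
  have hall : ∀ i, l - (1 + η) * D ≤ kap i Θ := by
    rcases halt with h | h
    · exfalso
      have h1 := ent_le' hE hg
      rw [← hl] at h1
      have h2 : 8 * D < J * η * D := mul_lt_mul_of_pos_right hJ hDpos
      nlinarith
    · exact h
  obtain ⟨r1, r2⟩ := longrun hg hpm hall m
  rw [← Function.iterate_add_apply] at r1 r2
  have hgibbs := gibbs (fun x : (Fin 3 → V) × (Fin 3 → V) => Θ x.1 x.2)
    (fun x => ((fwd E)^[J] Np) x.1 x.2 * ((bwd E)^[m + J] Nm) x.1 x.2)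
    (fun x => hg.nonneg _ _)
    (fun x => mul_nonneg (hpp.nonneg _ _) (r1.nonneg _ _))
    (fun x hx => mul_pos (hpp.pos _ _ hx) (r1.pos _ _ hx))
    (by rw [Fintype.sum_prod_type]; exact hg.sum hE)
  rw [Fintype.sum_prod_type, Fintype.sum_prod_type] at hgibbs
  refine le_trans ?_ hgibbs
  have hexp : ∑ s, ∑ u, Θ s u * (Real.log (((fwd E)^[J] Np) s u * ((bwd E)^[m + J] Nm) s u)
      - Real.log (Θ s u)) = ent Θ + mlog Θ ((fwd E)^[J] Np) + mlog Θ ((bwd E)^[m + J] Nm) := by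
    unfold ent mlog
    rw [← Finset.sum_add_distrib, ← Finset.sum_add_distrib]
    refine Finset.sum_congr rfl fun s _ => ?_
    rw [← Finset.sum_add_distrib, ← Finset.sum_add_distrib]
    refine Finset.sum_congr rfl fun u _ => ?_
    rcases (hg.nonneg s u).eq_or_lt with h0 | hpos
    · rw [← h0]; ring
    · rw [Real.log_mul (hpp.pos _ _ hpos).ne' (r1.pos _ _ hpos).ne']
      ring
  rw [hexp]
  linarith

end Pool.Agent.H27.Sid
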