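import Mathlib
import Pool.Agent.H27.Sid.Iter

/-!
The law of two opposite faces of a random octahedron.
-/

open Finset

set_option linter.unusedSectionVars false

namespace Pool.Agent.H27.Sid

section copy

variable {C V : Type*} [Fintype C] [Fintype V]

/-- marginal on the context -/
noncomputable def pC (p : C → V → ℝ) (c : C) : ℝ := ∑ b, p c b

/-- conditional copy -/
noncomputable def cp (p : C → V → ℝ) (c : C) (b b' : V) : ℝ := p c b * p c b' / pC p c

/-- entropy of a law on `C × V` -/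
noncomputable def H2 (p : C → V → ℝ) : ℝ := ∑ c, ∑ b, p c b * (- Real.log (p c b))

/-- entropy of the copied law -/
noncomputable def H3 (p : C → V → ℝ) : ℝ :=
  ∑ c, ∑ b, ∑ b', cp p c b b' * (- Real.log (cp p c b b'))

theorem pC_nonneg {p : C → V → ℝ} (h : ∀ c b, 0 ≤ p c b) (c : C) : 0 ≤ pC p c :=
  Finset.sum_nonneg fun _ _ => h _ _

theorem cp_nonneg {p : C → V → ℝ} (h : ∀ c b, 0 ≤ p c b) (c : C) (b b' : V) :
    0 ≤ cp p c b b' :=
  div_nonneg (mul_nonneg (h _ _) (h _ _)) (pC_nonneg h c)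

theorem le_pC {p : C → V → ℝ} (h : ∀ c b, 0 ≤ p c b) (c : C) (b : V) : p c b ≤ pC p c :=
  Finset.single_le_sum (f := fun b => p c b) (fun _ _ => h _ _) (Finset.mem_univ b)

theorem sum_cp_left {p : C → V → ℝ} (h : ∀ c b, 0 ≤ p c b) (c : C) (b' : V) :
    ∑ b, cp p c b b' = p c b' := by
  unfold cp
  rw [← Finset.sum_div, ← Finset.sum_mul]
  change pC p c * p c b' / pC p c = _
  rcases (pC_nonneg h c).eq_or_lt with h0 | h0
  · have h1 : p c b' = 0 := le_antisymm (by rw [h0]; exact le_pC h c b') (h _ _)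
    rw [h1]; simp
  · field_simp

theorem sum_cp_right {p : C → V → ℝ} (h : ∀ c b, 0 ≤ p c b) (c : C) (b : V) :
    ∑ b', cp p c b b' = p c b := by
  have : ∀ b', cp p c b b' = cp p c b' b := fun b' => by unfold cp; ring
  rw [Finset.sum_congr rfl fun b' _ => this b']
  exact sum_cp_left h c b

theorem cp_pos {p : C → V → ℝ} (h : ∀ c b, 0 ≤ p c b) {c : C} {b b' : V}
    (hpos : 0 < cp p c b b') : 0 < p c b ∧ 0 < p c b' := by
  unfold cp at hpos
  constructor
  · rcases (h c b).eq_or_lt with h0 | h0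
    · rw [← h0] at hpos; simp at hpos
    · exact h0
  · rcases (h c b').eq_or_lt with h0 | h0
    · rw [← h0] at hpos; simp at hpos
    · exact h0

theorem H3_ge [Nonempty C] {p : C → V → ℝ} (h : ∀ c b, 0 ≤ p c b)
    (hsum : ∑ c, ∑ b, p c b = 1) :
    2 * H2 p - Real.log (Fintype.card C) ≤ H3 p := by
  have key : ∀ c b b', cp p c b b' * (- Real.log (cp p c b b')) =
      cp p c b b' * (- Real.log (p c b)) + cp p c b b' * (- Real.log (p c b')) -
        cp p c b b' * (- Real.log (pC p c)) := by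
    intro c b b'
    rcases (cp_nonneg h c b b').eq_or_lt with h0 | hpos
    · rw [← h0]; ring
    · obtain ⟨h1, h2⟩ := cp_pos h hpos
      have h3 : 0 < pC p c := lt_of_lt_of_le h1 (le_pC h c b)
      have : Real.log (cp p c b b') = Real.log (p c b) + Real.log (p c b') -
          Real.log (pC p c) := by
        unfold cp
        rw [Real.log_div (by positivity) h3.ne', Real.log_mul h1.ne' h2.ne']
      rw [this]; ring
  have h1 : H3 p = 2 * H2 p - ∑ c, pC p c * (- Real.log (pC p c)) := by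
    unfold H3 H2
    simp only [key]
    simp only [Finset.sum_sub_distrib, Finset.sum_add_distrib]
    have e1 : ∑ c, ∑ b, ∑ b', cp p c b b' * (- Real.log (p c b)) =
        ∑ c, ∑ b, p c b * (- Real.log (p c b)) := by
      refine Finset.sum_congr rfl fun c _ => Finset.sum_congr rfl fun b _ => ?_
      rw [← Finset.sum_mul, sum_cp_right h]
    have e2 : ∑ c, ∑ b, ∑ b', cp p c b b' * (- Real.log (p c b')) =
        ∑ c, ∑ b, p c b * (- Real.log (p c b)) := by
      refine Finset.sum_congr rfl fun c _ => ?_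
      rw [Finset.sum_comm]
      refine Finset.sum_congr rfl fun b _ => ?_
      rw [← Finset.sum_mul, sum_cp_left h]
    have e3 : ∑ c, ∑ b, ∑ b', cp p c b b' * (- Real.log (pC p c)) =
        ∑ c, pC p c * (- Real.log (pC p c)) := by
      refine Finset.sum_congr rfl fun c _ => ?_
      have : ∀ b, ∑ b', cp p c b b' * (- Real.log (pC p c)) =
          p c b * (- Real.log (pC p c)) := fun b => by
        rw [← Finset.sum_mul, sum_cp_right h]
      rw [Finset.sum_congr rfl fun b _ => this b, ← Finset.sum_mul]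
      rfl
    rw [e1, e2, e3]
    ring
  have h2 := gibbs (fun c => pC p c) (fun _ => 1) (fun c => pC_nonneg h c)
    (fun _ => zero_le_one) (fun _ _ => one_pos) hsum
  have h3 : ∑ c, pC p c * (Real.log 1 - Real.log (pC p c)) =
      ∑ c, pC p c * (- Real.log (pC p c)) := by
    refine Finset.sum_congr rfl fun c _ => ?_
    simp
  rw [h3] at h2
  simp only [Finset.sum_const, Finset.card_univ, nsmul_eq_mul, mul_one] at h2
  linarith

end copy

variable {V : Type*} [Fintype V]

/-- the equivalence between functions on `Fin 3` and triples -/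
def e3 : (Fin 3 → V) ≃ V × V × V where
  toFun u := (u 0, u 1, u 2)
  invFun x := ![x.1, x.2.1, x.2.2]
  left_inv u := by funext i; fin_cases i <;> rfl
  right_inv x := rfl

theorem sum3 (F : (Fin 3 → V) → ℝ) : ∑ u, F u = ∑ x, ∑ y, ∑ z, F ![x, y, z] := by
  rw [← Equiv.sum_comp e3.symm F]
  simp only [Fintype.sum_prod_type]
  rfl

section octa

variable (E : Set (Fin 3 → V))

/-- first stage -/
noncomputable def p1 (c : V × V) (x : V) : ℝ := ind E ![x, c.1, c.2] / cE E

/-- second stage: context `(x, x', z)` -/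
noncomputable def p2 (c : V × V × V) (y : V) : ℝ := cp (p1 E) (y, c.2.2) c.1 c.2.1

/-- third stage: context `(x, x', y, y')` -/
noncomputable def p3 (c : V × V × V × V) (z : V) : ℝ :=
  cp (p2 E) (c.1, c.2.1, z) c.2.2.1 c.2.2.2

/-- the law of two opposite faces -/
noncomputable def octa (s u : Fin 3 → V) : ℝ :=
  cp (p3 E) (s 0, u 0, s 1, u 1) (s 2) (u 2)

variable {E}

theorem p1_nonneg (hE : E.Nonempty) (c : V × V) (x : V) : 0 ≤ p1 E c x :=
  div_nonneg (ind_nonneg _ _) (cE_pos hE).le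

theorem p2_nonneg (hE : E.Nonempty) (c : V × V × V) (y : V) : 0 ≤ p2 E c y :=
  cp_nonneg (p1_nonneg hE) _ _ _

theorem p3_nonneg (hE : E.Nonempty) (c : V × V × V × V) (z : V) : 0 ≤ p3 E c z :=
  cp_nonneg (p2_nonneg hE) _ _ _

theorem p1_sum (hE : E.Nonempty) : ∑ c, ∑ x, p1 E c x = 1 := by
  rw [Finset.sum_comm]
  simp only [Fintype.sum_prod_type]
  unfold p1
  rw [← sum3 (fun u => ind E u / cE E), ← Finset.sum_div]
  exact div_self (cE_pos hE).ne'

theorem reidx {C D : Type*} [Fintype C] [Fintype D] (F : C → V → ℝ) (G : D → V → V → ℝ)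
    (e : C × V ≃ D × V × V) (h : ∀ q, F q.1 q.2 = G (e q).1 (e q).2.1 (e q).2.2) :
    ∑ c, ∑ y, F c y = ∑ d, ∑ x, ∑ x', G d x x' := by
  have h1 : ∑ c, ∑ y, F c y = ∑ q : C × V, F q.1 q.2 := by rw [Fintype.sum_prod_type]
  have h2 : ∑ d, ∑ x, ∑ x', G d x x' = ∑ r : D × V × V, G r.1 r.2.1 r.2.2 := by
    rw [Fintype.sum_prod_type]
    refine Finset.sum_congr rfl fun d _ => ?_
    rw [Fintype.sum_prod_type]
  rw [h1, h2, ← Equiv.sum_comp e]
  exact Finset.sum_congr rfl fun q _ => h q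

/-- reindexing -/
def eA : (V × V × V) × V ≃ (V × V) × V × V where
  toFun q := ((q.2, q.1.2.2), q.1.1, q.1.2.1)
  invFun r := ((r.2.1, r.2.2, r.1.2), r.1.1)
  left_inv _ := rfl
  right_inv _ := rfl

/-- reindexing -/
def eB : (V × V × V × V) × V ≃ (V × V × V) × V × V where
  toFun q := ((q.1.1, q.1.2.1, q.2), q.1.2.2.1, q.1.2.2.2)
  invFun r := ((r.1.1, r.1.2.1, r.2.1, r.2.2), r.1.2.2)
  left_inv _ := rfl
  right_inv _ := rfl

/-- reindexing -/
def eC : (Fin 3 → V) × (Fin 3 → V) ≃ (V × V × V × V) × V × V where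
  toFun q := ((q.1 0, q.2 0, q.1 1, q.2 1), q.1 2, q.2 2)
  invFun r := (![r.1.1, r.1.2.2.1, r.2.1], ![r.1.2.1, r.1.2.2.2, r.2.2])
  left_inv q := by
    refine Prod.ext ?_ ?_ <;> funext i <;> fin_cases i <;> rfl
  right_inv _ := rfl

theorem p2_sum (hE : E.Nonempty) : ∑ c, ∑ y, p2 E c y = 1 := by
  rw [reidx (p2 E) (cp (p1 E)) eA (fun _ => rfl), ← p1_sum hE]
  refine Finset.sum_congr rfl fun c _ => Finset.sum_congr rfl fun x _ => ?_
  exact sum_cp_right (p1_nonneg hE) c x

theorem p3_sum (hE : E.Nonempty) : ∑ c, ∑ y, p3 E c y = 1 := by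
  rw [reidx (p3 E) (cp (p2 E)) eB (fun _ => rfl), ← p2_sum hE]
  refine Finset.sum_congr rfl fun c _ => Finset.sum_congr rfl fun x _ => ?_
  exact sum_cp_right (p2_nonneg hE) c x

theorem H2_p1 (hE : E.Nonempty) : H2 (p1 E) = Real.log (cE E) := by
  unfold H2
  have hc := cE_pos hE
  have : ∀ (c : V × V) (x : V), p1 E c x * (- Real.log (p1 E c x)) =
      p1 E c x * Real.log (cE E) := by
    intro c x
    unfold p1
    by_cases hu : ![x, c.1, c.2] ∈ E
    · have : ind E ![x, c.1, c.2] = 1 := by simp [ind, hu]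
      rw [this, Real.log_div one_ne_zero hc.ne', Real.log_one]; ring
    · have : ind E ![x, c.1, c.2] = 0 := by simp [ind, hu]
      rw [this]; ring
  simp only [this, ← Finset.sum_mul]
  rw [p1_sum hE, one_mul]

theorem H2_p2 : H2 (p2 E) = H3 (p1 E) :=
  reidx (fun c y => p2 E c y * (- Real.log (p2 E c y)))
    (fun c x x' => cp (p1 E) c x x' * (- Real.log (cp (p1 E) c x x'))) eA (fun _ => rfl)

theorem H2_p3 : H2 (p3 E) = H3 (p2 E) :=
  reidx (fun c y => p3 E c y * (- Real.log (p3 E c y)))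
    (fun c x x' => cp (p2 E) c x x' * (- Real.log (cp (p2 E) c x x'))) eB (fun _ => rfl)

theorem ent_octa_eq : ent (octa E) = H3 (p3 E) := by
  unfold ent H3
  have h1 : ∑ s, ∑ u, octa E s u * (- Real.log (octa E s u)) =
      ∑ q : (Fin 3 → V) × (Fin 3 → V), octa E q.1 q.2 * (- Real.log (octa E q.1 q.2)) := by
    rw [Fintype.sum_prod_type]
  have h2 : ∑ c, ∑ b, ∑ b', cp (p3 E) c b b' * (- Real.log (cp (p3 E) c b b')) =
      ∑ r : (V × V × V × V) × V × V, cp (p3 E) r.1 r.2.1 r.2.2 *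
        (- Real.log (cp (p3 E) r.1 r.2.1 r.2.2)) := by
    conv_rhs => rw [Fintype.sum_prod_type]
    refine Finset.sum_congr rfl fun d _ => ?_
    conv_rhs => rw [Fintype.sum_prod_type]
  rw [h1, h2, ← Equiv.sum_comp eC]
  rfl

/-- entropy of the octahedron law -/
theorem ent_octa [Nonempty V] (hE : E.Nonempty) :
    8 * Real.log (cE E) - 18 * Real.log (Fintype.card V) ≤ ent (octa E) := by
  have a1 := H3_ge (p1_nonneg hE) (p1_sum hE)
  have a2 := H3_ge (p2_nonneg hE) (p2_sum hE)
  have a3 := H3_ge (p3_nonneg hE) (p3_sum hE)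
  have hn : (Fintype.card V : ℝ) ≠ 0 := by exact_mod_cast Fintype.card_ne_zero
  have b1 : Real.log (Fintype.card (V × V)) = 2 * Real.log (Fintype.card V) := by
    rw [Fintype.card_prod]; push_cast; rw [Real.log_mul hn hn]; ring
  have b2 : Real.log (Fintype.card (V × V × V)) = 3 * Real.log (Fintype.card V) := by
    rw [Fintype.card_prod, Fintype.card_prod]; push_cast
    rw [Real.log_mul hn (by positivity), Real.log_mul hn hn]; ring
  have b3 : Real.log (Fintype.card (V × V × V × V)) = 4 * Real.log (Fintype.card V) := by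
    rw [Fintype.card_prod, Fintype.card_prod, Fintype.card_prod]; push_cast
    rw [Real.log_mul hn (by positivity), Real.log_mul hn (by positivity),
      Real.log_mul hn hn]; ring
  rw [H2_p1 hE, b1] at a1
  rw [H2_p2, b2] at a2
  rw [H2_p3, b3] at a3
  rw [ent_octa_eq]
  linarith

theorem octa_nonneg (hE : E.Nonempty) (s u : Fin 3 → V) : 0 ≤ octa E s u :=
  cp_nonneg (p3_nonneg hE) _ _ _

theorem octa_good (hE : E.Nonempty) : Good E (octa E) := by
  refine ⟨octa_nonneg hE, fun u => ?_⟩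
  rw [sum3]
  have h1 : ∀ x y : V, ∑ z, octa E ![x, y, z] u = p3 E (x, u 0, y, u 1) (u 2) := fun x y =>
    sum_cp_left (p3_nonneg hE) (x, u 0, y, u 1) (u 2)
  have h2 : ∀ x : V, ∑ y, p3 E (x, u 0, y, u 1) (u 2) = p2 E (x, u 0, u 2) (u 1) := fun x =>
    sum_cp_left (p2_nonneg hE) (x, u 0, u 2) (u 1)
  have h3 : ∑ x, p2 E (x, u 0, u 2) (u 1) = p1 E (u 1, u 2) (u 0) :=
    sum_cp_left (p1_nonneg hE) (u 1, u 2) (u 0)
  simp only [h1, h2, h3]
  unfold p1
  have : ![u 0, u 1, u 2] = u := by funext i; fin_cases i <;> rfl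
  simp only [this]

theorem ind_pos {u : Fin 3 → V} (h : 0 < ind E u) : u ∈ E := by
  by_contra hu
  simp [ind, hu] at h

theorem p1_pos {c : V × V} {x : V} (h : 0 < p1 E c x) : ![x, c.1, c.2] ∈ E := by
  by_contra hu
  unfold p1 at h
  have : ind E ![x, c.1, c.2] = 0 := by simp [ind, hu]
  rw [this] at h
  simp at h

/-- all eight faces are edges -/
theorem octa_faces (hE : E.Nonempty) {s u : Fin 3 → V} (h : 0 < octa E s u) :
    ∀ a b c : Bool, ![(if a then s 0 else u 0), (if b then s 1 else u 1),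
      (if c then s 2 else u 2)] ∈ E := by
  obtain ⟨hz, hz'⟩ := cp_pos (p3_nonneg hE) h
  have q1 : ∀ c : Bool, 0 < p3 E (s 0, u 0, s 1, u 1) (if c then s 2 else u 2) := by
    intro c; cases c <;> simp [hz, hz']
  have q2 : ∀ b c : Bool, 0 < p2 E (s 0, u 0, (if c then s 2 else u 2))
      (if b then s 1 else u 1) := by
    intro b c
    obtain ⟨r1, r2⟩ := cp_pos (p2_nonneg hE) (q1 c)
    cases b
    · exact r2
    · exact r1
  intro a b c
  obtain ⟨r1, r2⟩ := cp_pos (p1_nonneg hE) (q2 b c)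
  cases a
  · exact p1_pos r2
  · exact p1_pos r1

end octa

/-- identity weight -/
noncomputable def idw (s u : Fin 3 → V) : ℝ := by
  classical exact if s = u then 1 else 0

theorem idw_nonneg (s u : Fin 3 → V) : 0 ≤ idw s u := by
  unfold idw; split_ifs <;> norm_num

theorem idw_self (s : Fin 3 → V) : idw s s = 1 := by simp [idw]

variable {E : Set (Fin 3 → V)}

theorem T_nonneg {N : (Fin 3 → V) → (Fin 3 → V) → ℝ} (h : ∀ s u, 0 ≤ N s u) (i : Fin 3)
    (s u : Fin 3 → V) : 0 ≤ T E i N s u :=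
  mul_nonneg (ind_nonneg E u) (Finset.sum_nonneg fun a _ =>
    mul_nonneg (ind_nonneg E _) (h _ _))

theorem T_ge {N : (Fin 3 → V) → (Fin 3 → V) → ℝ} (h : ∀ s u, 0 ≤ N s u) (i : Fin 3)
    (s u : Fin 3 → V) (a : V) (hu : u ∈ E) (hua : Function.update u i a ∈ E) :
    N s (Function.update u i a) ≤ T E i N s u := by
  have h1 : ind E u = 1 := by simp [ind, hu]
  have h2 : ind E (Function.update u i a) = 1 := by simp [ind, hua]
  unfold T
  rw [h1, one_mul]
  have := Finset.single_le_sum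
    (f := fun a => ind E (Function.update u i a) * N s (Function.update u i a))
    (fun a _ => mul_nonneg (ind_nonneg E _) (h _ _)) (Finset.mem_univ a)
  simp only [h2, one_mul] at this
  exact this

theorem vec3 (u : Fin 3 → V) : ![u 0, u 1, u 2] = u := by funext i; fin_cases i <;> rfl

theorem upd0 (a b c x : V) : Function.update ![a, b, c] 0 x = ![x, b, c] := by
  funext i; fin_cases i <;> rfl

theorem upd1 (a b c x : V) : Function.update ![a, b, c] 1 x = ![a, x, c] := by
  funext i; fin_cases i <;> rfl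

theorem upd2 (a b c x : V) : Function.update ![a, b, c] 2 x = ![a, b, x] := by
  funext i; fin_cases i <;> rfl

theorem fwd_octa (hE : E.Nonempty) {s u : Fin 3 → V} (h : 0 < octa E s u) :
    1 ≤ fwd E idw s u := by
  have hf := octa_faces hE h
  have f0 := hf false false false
  have f1 := hf false false true
  have f2 := hf false true true
  have f3 := hf true true true
  simp only [Bool.false_eq_true, ↓reduceIte] at f0 f1 f2 f3
  have n1 : ∀ s u, 0 ≤ T E 0 (idw (V := V)) s u := T_nonneg idw_nonneg 0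
  have n2 : ∀ s u, 0 ≤ T E 1 (T E 0 (idw (V := V))) s u := T_nonneg n1 1
  unfold fwd
  rw [← vec3 u]
  have t2 := T_ge n2 2 s ![u 0, u 1, u 2] (s 2) f0 (by rw [upd2]; exact f1)
  rw [upd2] at t2
  have t1 := T_ge n1 1 s ![u 0, u 1, s 2] (s 1) f1 (by rw [upd1]; exact f2)
  rw [upd1] at t1
  have t0 := T_ge idw_nonneg 0 s ![u 0, s 1, s 2] (s 0) f2 (by rw [upd0]; exact f3)
  rw [upd0, vec3, idw_self] at t0
  linarith

theorem bwd_octa (hE : E.Nonempty) {s u : Fin 3 → V} (h : 0 < octa E s u) :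
    1 ≤ bwd E idw s u := by
  have hf := octa_faces hE h
  have f0 := hf false false false
  have f1 := hf true false false
  have f2 := hf true true false
  have f3 := hf true true true
  simp only [Bool.false_eq_true, ↓reduceIte] at f0 f1 f2 f3
  have n1 : ∀ s u, 0 ≤ T E 2 (idw (V := V)) s u := T_nonneg idw_nonneg 2
  have n2 : ∀ s u, 0 ≤ T E 1 (T E 2 (idw (V := V))) s u := T_nonneg n1 1
  unfold bwd
  rw [← vec3 u]
  have t2 := T_ge n2 0 s ![u 0, u 1, u 2] (s 0) f0 (by rw [upd0]; exact f1)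
  rw [upd0] at t2
  have t1 := T_ge n1 1 s ![s 0, u 1, u 2] (s 1) f1 (by rw [upd1]; exact f2)
  rw [upd1] at t1
  have t0 := T_ge idw_nonneg 2 s ![s 0, s 1, u 2] (s 2) f2 (by rw [upd2]; exact f3)
  rw [upd2, vec3, idw_self] at t0
  linarith

/-- the main bound, with the starting law supplied -/
theorem main_bound' [Nonempty V] (hE : E.Nonempty) {l D η : ℝ}
    (hl : l = Real.log (Fintype.card V)) (hD : D = 3 * l - Real.log (cE E)) (hη : 0 < η)
    (hDpos : 0 < D) (J : ℕ) (hJ : 8 < J * η) (m : ℕ) :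
    (6 + 6 * J + 3 * m) * l - (8 + 48 * J + 3 * m * (1 + η)) * D ≤
      Real.log (∑ s, ∑ u, ((fwd E)^[J + 1] idw) s u * ((bwd E)^[m + J + 1] idw) s u) := by
  have hf : ∀ s u, 0 ≤ fwd E (idw (V := V)) s u := T_nonneg (T_nonneg (T_nonneg idw_nonneg 0) 1) 2
  have hb : ∀ s u, 0 ≤ bwd E (idw (V := V)) s u := T_nonneg (T_nonneg (T_nonneg idw_nonneg 2) 1) 0
  have h := main_bound hE hl hD hη hDpos (octa E) (fwd E idw) (bwd E idw) (octa_good hE)
    (by have := ent_octa hE; rw [← hl] at this; linarith)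
    ⟨hf, fun s u h => lt_of_lt_of_le one_pos (fwd_octa hE h)⟩
    ⟨hb, fun s u h => lt_of_lt_of_le one_pos (bwd_octa hE h)⟩
    (Finset.sum_nonneg fun s _ => Finset.sum_nonneg fun u _ => by
      rcases (octa_nonneg hE s u).eq_or_lt with h0 | h0
      · rw [← h0, zero_mul]
      · exact mul_nonneg h0.le (Real.log_nonneg (fwd_octa hE h0)))
    (Finset.sum_nonneg fun s _ => Finset.sum_nonneg fun u _ => by
      rcases (octa_nonneg hE s u).eq_or_lt with h0 | h0
      · rw [← h0, zero_mul]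
      · exact mul_nonneg h0.le (Real.log_nonneg (bwd_octa hE h0)))
    J hJ m
  simp only [Function.iterate_succ_apply]
  refine le_trans (le_of_eq ?_) h
  ring

end Pool.Agent.H27.Sid
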