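import Mathlib
import Pool.Agent.H27.Sid.Octa
import Pool.Agent.H27.Sid.Defs

/-!
Counting closed walks.
-/

open Finset

set_option linter.unusedSectionVars false

namespace Pool.Agent.H27.Sid

variable {V : Type*} [Fintype V] {E : Set (Fin 3 → V)}

/-- the transfer matrix -/
noncomputable def Mt (E : Set (Fin 3 → V)) (s u : Fin 3 → V) : ℝ :=
  ind E s * ind E ![u 0, s 1, s 2] * ind E ![u 0, u 1, s 2] * ind E u

theorem ind_sq (u : Fin 3 → V) : ind E u * ind E u = ind E u := by
  unfold ind; split_ifs <;> norm_num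

theorem T0_eq (N : (Fin 3 → V) → (Fin 3 → V) → ℝ) (s : Fin 3 → V) (a b c : V) :
    T E 0 N s ![a, b, c] = ind E ![a, b, c] * ∑ x, ind E ![x, b, c] * N s ![x, b, c] := by
  unfold T; simp only [upd0]

theorem T1_eq (N : (Fin 3 → V) → (Fin 3 → V) → ℝ) (s : Fin 3 → V) (a b c : V) :
    T E 1 N s ![a, b, c] = ind E ![a, b, c] * ∑ x, ind E ![a, x, c] * N s ![a, x, c] := by
  unfold T; simp only [upd1]

theorem T2_eq (N : (Fin 3 → V) → (Fin 3 → V) → ℝ) (s : Fin 3 → V) (a b c : V) :
    T E 2 N s ![a, b, c] = ind E ![a, b, c] * ∑ x, ind E ![a, b, x] * N s ![a, b, x] := by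
  unfold T; simp only [upd2]

theorem fwd_eq (N : (Fin 3 → V) → (Fin 3 → V) → ℝ) (s u : Fin 3 → V) :
    fwd E N s u = ∑ a, N s a * Mt E a u := by
  obtain ⟨p, q, r, rfl⟩ : ∃ p q r, u = ![p, q, r] := ⟨u 0, u 1, u 2, (vec3 u).symm⟩
  unfold fwd
  rw [T2_eq, sum3]
  simp only [T1_eq, T0_eq, Finset.mul_sum]
  rw [Finset.sum_comm' (t' := univ) (s' := fun _ => univ) (by simp)]
  have h1 : ∀ y : V, ∑ z, ∑ x, ind E ![p, q, r] * (ind E ![p, q, z] * (ind E ![p, q, z] *
      (ind E ![p, y, z] * (ind E ![p, y, z] * (ind E ![x, y, z] * N s ![x, y, z]))))) =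
      ∑ x, ∑ z, ind E ![p, q, r] * (ind E ![p, q, z] * (ind E ![p, q, z] *
      (ind E ![p, y, z] * (ind E ![p, y, z] * (ind E ![x, y, z] * N s ![x, y, z]))))) :=
    fun y => Finset.sum_comm
  simp only [h1]
  rw [Finset.sum_comm]
  refine Finset.sum_congr rfl fun x _ => Finset.sum_congr rfl fun y _ =>
    Finset.sum_congr rfl fun z _ => ?_
  have i1 := ind_sq (E := E) ![p, q, z]
  have i2 := ind_sq (E := E) ![p, y, z]
  have e0 : (![p, q, r] : Fin 3 → V) 0 = p := rfl
  have e1 : (![p, q, r] : Fin 3 → V) 1 = q := rfl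
  have e2 : (![x, y, z] : Fin 3 → V) 1 = y := rfl
  have e3 : (![x, y, z] : Fin 3 → V) 2 = z := rfl
  unfold Mt
  rw [e0, e1, e2, e3]
  calc _ = (ind E ![p, q, z] * ind E ![p, q, z]) * (ind E ![p, y, z] * ind E ![p, y, z]) *
      (ind E ![p, q, r] * ind E ![x, y, z] * N s ![x, y, z]) := by ring
    _ = _ := by rw [i1, i2]; ring

theorem bwd_eq (N : (Fin 3 → V) → (Fin 3 → V) → ℝ) (s u : Fin 3 → V) :
    bwd E N s u = ∑ a, N s a * Mt E u a := by
  obtain ⟨p, q, r, rfl⟩ : ∃ p q r, u = ![p, q, r] := ⟨u 0, u 1, u 2, (vec3 u).symm⟩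
  unfold bwd
  rw [T0_eq, sum3]
  simp only [T1_eq, T2_eq, Finset.mul_sum]
  refine Finset.sum_congr rfl fun x _ => Finset.sum_congr rfl fun y _ =>
    Finset.sum_congr rfl fun z _ => ?_
  have i1 := ind_sq (E := E) ![x, q, r]
  have i2 := ind_sq (E := E) ![x, y, r]
  have e0 : (![x, y, z] : Fin 3 → V) 0 = x := rfl
  have e1 : (![x, y, z] : Fin 3 → V) 1 = y := rfl
  have e2 : (![p, q, r] : Fin 3 → V) 1 = q := rfl
  have e3 : (![p, q, r] : Fin 3 → V) 2 = r := rfl
  unfold Mt
  rw [e0, e1, e2, e3]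
  calc _ = (ind E ![x, q, r] * ind E ![x, q, r]) * (ind E ![x, y, r] * ind E ![x, y, r]) *
      (ind E ![p, q, r] * ind E ![x, y, z] * N s ![x, y, z]) := by ring
    _ = _ := by rw [i1, i2]; ring

/-- the transfer matrix as a matrix -/
noncomputable def MM (E : Set (Fin 3 → V)) : Matrix (Fin 3 → V) (Fin 3 → V) ℝ := Mt E

open Classical in
theorem fwd_iter (k : ℕ) : (fwd E)^[k] idw = fun s u => (MM E ^ k) s u := by
  induction k with
  | zero =>
    funext s u
    simp [idw, Matrix.one_apply]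
  | succ k ih =>
    funext s u
    rw [Function.iterate_succ_apply', fwd_eq, ih, pow_succ, Matrix.mul_apply]
    rfl

open Classical in
theorem bwd_iter (k : ℕ) : (bwd E)^[k] idw = fun s u => (MM E ^ k) u s := by
  induction k with
  | zero =>
    funext s u
    simp [idw, Matrix.one_apply, eq_comm]
  | succ k ih =>
    funext s u
    rw [Function.iterate_succ_apply', bwd_eq, ih, pow_succ', Matrix.mul_apply]
    refine Finset.sum_congr rfl fun a _ => ?_
    simp only
    exact mul_comm _ _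

open Classical in
theorem sum_eq_trace (a b : ℕ) :
    ∑ s, ∑ u, ((fwd E)^[a] idw) s u * ((bwd E)^[b] idw) s u = (MM E ^ (a + b)).trace := by
  rw [fwd_iter, bwd_iter, pow_add, Matrix.trace]
  refine Finset.sum_congr rfl fun s _ => ?_
  rw [Matrix.diag_apply, Matrix.mul_apply]

/-- expansion of a power of a matrix -/
theorem pow_expand {S : Type*} [Fintype S] [DecidableEq S] (M : Matrix S S ℝ) (k : ℕ) (s u : S) :
    (M ^ k) s u = ∑ σ : Fin (k + 1) → S, if σ 0 = s ∧ σ (Fin.last k) = u then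
      ∏ i : Fin k, M (σ i.castSucc) (σ i.succ) else 0 := by
  induction k generalizing s with
  | zero =>
    rw [pow_zero, Matrix.one_apply]
    have hl : Fin.last 0 = 0 := rfl
    simp only [hl, Finset.univ_eq_empty, Finset.prod_empty]
    rw [← (Equiv.funUnique (Fin 1) S).symm.sum_comp]
    simp only [Equiv.funUnique_symm_apply, uniqueElim_const]
    by_cases h : s = u
    · subst h; simp
    · rw [if_neg h]
      symm
      refine Finset.sum_eq_zero fun x _ => ?_
      rw [if_neg]
      rintro ⟨h1, h2⟩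
      exact h (h1.symm.trans h2)
  | succ k ih =>
    rw [pow_succ', Matrix.mul_apply]
    rw [← (Fin.consEquiv (fun _ : Fin (k + 2) => S)).sum_comp]
    rw [Fintype.sum_prod_type]
    simp only [Fin.consEquiv_apply]
    have h1 : ∀ x : S, ∑ τ : Fin (k + 1) → S,
        (if (Fin.cons x τ : Fin (k + 2) → S) 0 = s ∧
          (Fin.cons x τ : Fin (k + 2) → S) (Fin.last (k + 1)) = u then
        ∏ i : Fin (k + 1), M ((Fin.cons x τ : Fin (k + 2) → S) i.castSucc)
          ((Fin.cons x τ : Fin (k + 2) → S) i.succ) else 0) =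
        if x = s then ∑ τ : Fin (k + 1) → S, (if τ (Fin.last k) = u then
          M s (τ 0) * ∏ i : Fin k, M (τ i.castSucc) (τ i.succ) else 0) else 0 := by
      intro x
      by_cases hx : x = s
      · subst hx
        rw [if_pos rfl]
        refine Finset.sum_congr rfl fun τ _ => ?_
        rw [← Fin.succ_last, Fin.cons_succ, Fin.cons_zero, Fin.prod_univ_succ]
        simp only [Fin.castSucc_zero, Fin.cons_zero, Fin.cons_succ, true_and]
        rfl
      · rw [if_neg hx]
        refine Finset.sum_eq_zero fun τ _ => ?_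
        rw [if_neg]
        rintro ⟨h2, _⟩
        exact hx h2
    rw [Finset.sum_congr rfl fun x _ => h1 x, Finset.sum_ite_eq' univ s, if_pos (Finset.mem_univ s)]
    simp only [ih, Finset.mul_sum]
    rw [Finset.sum_comm]
    refine Finset.sum_congr rfl fun τ _ => ?_
    rw [Finset.sum_eq_single (τ 0)]
    · by_cases h : τ (Fin.last k) = u
      · simp [h]
      · simp [h]
    · intro y _ hy
      rw [if_neg (fun h => hy h.1.symm), mul_zero]
    · intro h; exact absurd (Finset.mem_univ _) h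

end Pool.Agent.H27.Sid
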