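import Mathlib
import Pool.Agent.H27.Sid.Count

/-!
Closed walks give homomorphisms of the tight cycle.
-/

open Finset

set_option linter.unusedSectionVars false

namespace Pool.Agent.H27.Sid

variable {V : Type*} [Fintype V]

/-- ordered edges -/
def EE (H : Set (Set V)) : Set (Fin 3 → V) := {u | u '' Set.univ ∈ H}

theorem image_univ3 (u : Fin 3 → V) : u '' Set.univ = {u 0, u 1, u 2} := by
  ext x
  simp only [Set.image_univ, Set.mem_range, Set.mem_insert_iff, Set.mem_singleton_iff]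
  constructor
  · rintro ⟨i, rfl⟩
    fin_cases i <;> simp
  · rintro (rfl | rfl | rfl)
    · exact ⟨0, rfl⟩
    · exact ⟨1, rfl⟩
    · exact ⟨2, rfl⟩

theorem mem_EE {H : Set (Set V)} {a b c : V} : ![a, b, c] ∈ EE H ↔ ({a, b, c} : Set V) ∈ H := by
  unfold EE
  rw [Set.mem_ofPred_eq, image_univ3]
  rfl

/-- vertex number `t` of the sequence of states -/
def cc (τ : ℕ → (Fin 3 → V)) (t : ℕ) : V := τ (t / 3) ⟨t % 3, Nat.mod_lt _ (by norm_num)⟩

theorem cc_eq (τ : ℕ → (Fin 3 → V)) (i r : ℕ) (hr : r < 3) : cc τ (3 * i + r) = τ i ⟨r, hr⟩ := by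
  unfold cc
  have h1 : (3 * i + r) / 3 = i := by omega
  have h2 : (⟨(3 * i + r) % 3, Nat.mod_lt _ (by norm_num)⟩ : Fin 3) = ⟨r, hr⟩ := by
    apply Fin.ext
    show (3 * i + r) % 3 = r
    omega
  rw [h1, h2]

/-- consecutive vertices form edges -/
theorem cc_edge {H : Set (Set V)} (τ : ℕ → (Fin 3 → V)) (t : ℕ)
    (h1 : τ (t / 3) ∈ EE H) (h2 : ![τ (t / 3 + 1) 0, τ (t / 3) 1, τ (t / 3) 2] ∈ EE H)
    (h3 : ![τ (t / 3 + 1) 0, τ (t / 3 + 1) 1, τ (t / 3) 2] ∈ EE H) :
    ({cc τ t, cc τ (t + 1), cc τ (t + 2)} : Set V) ∈ H := by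
  obtain ⟨i, r, hr, ht⟩ : ∃ i r, r < 3 ∧ t = 3 * i + r := ⟨t / 3, t % 3, by omega, by omega⟩
  have hi : t / 3 = i := by omega
  rw [hi] at h1 h2 h3
  rw [← vec3 (τ i), mem_EE] at h1
  rw [mem_EE] at h2 h3
  subst ht
  interval_cases r
  · have e0 := cc_eq τ i 0 (by norm_num)
    have e1 := cc_eq τ i 1 (by norm_num)
    have e2 := cc_eq τ i 2 (by norm_num)
    have f1 : 3 * i + 0 + 1 = 3 * i + 1 := by ring
    have f2 : 3 * i + 0 + 2 = 3 * i + 2 := by ring
    rw [f1, f2, e0, e1, e2]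
    exact h1
  · have e0 := cc_eq τ (i + 1) 0 (by norm_num)
    have e1 := cc_eq τ i 1 (by norm_num)
    have e2 := cc_eq τ i 2 (by norm_num)
    have f1 : 3 * i + 1 + 1 = 3 * i + 2 := by ring
    have f2 : 3 * i + 1 + 2 = 3 * (i + 1) + 0 := by ring
    rw [f1, f2, e0, e1, e2]
    have : ({τ i ⟨1, by norm_num⟩, τ i ⟨2, by norm_num⟩, τ (i + 1) ⟨0, by norm_num⟩} : Set V) =
        {τ (i + 1) 0, τ i 1, τ i 2} := by
      ext x; simp only [Set.mem_insert_iff, Set.mem_singleton_iff]
      constructor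
      · rintro (h | h | h)
        · exact Or.inr (Or.inl h)
        · exact Or.inr (Or.inr h)
        · exact Or.inl h
      · rintro (h | h | h)
        · exact Or.inr (Or.inr h)
        · exact Or.inl h
        · exact Or.inr (Or.inl h)
    rw [this]
    exact h2
  · have e0 := cc_eq τ (i + 1) 0 (by norm_num)
    have e1 := cc_eq τ (i + 1) 1 (by norm_num)
    have e2 := cc_eq τ i 2 (by norm_num)
    have f1 : 3 * i + 2 + 1 = 3 * (i + 1) + 0 := by ring
    have f2 : 3 * i + 2 + 2 = 3 * (i + 1) + 1 := by ring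
    rw [f1, f2, e0, e1, e2]
    have : ({τ i ⟨2, by norm_num⟩, τ (i + 1) ⟨0, by norm_num⟩, τ (i + 1) ⟨1, by norm_num⟩} :
        Set V) = {τ (i + 1) 0, τ (i + 1) 1, τ i 2} := by
      ext x; simp only [Set.mem_insert_iff, Set.mem_singleton_iff]
      constructor
      · rintro (h | h | h)
        · exact Or.inr (Or.inr h)
        · exact Or.inl h
        · exact Or.inr (Or.inl h)
      · rintro (h | h | h)
        · exact Or.inr (Or.inl h)
        · exact Or.inr (Or.inr h)
        · exact Or.inl h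
    rw [this]
    exact h3

/-- extension of a sequence of states -/
def ext {k : ℕ} (σ : Fin (k + 1) → (Fin 3 → V)) (i : ℕ) : Fin 3 → V :=
  if h : i < k + 1 then σ ⟨i, h⟩ else σ 0

/-- the map of a closed walk -/
def fmap {k : ℕ} (σ : Fin (k + 1) → (Fin 3 → V)) (x : ZMod (3 * k)) : V := cc (ext σ) x.val

theorem fmap_natCast {k : ℕ} (hk : 0 < k) (σ : Fin (k + 1) → (Fin 3 → V))
    (hσ : σ (Fin.last k) = σ 0) (t : ℕ) (ht : t < 3 * k + 2) :
    fmap σ (t : ZMod (3 * k)) = cc (ext σ) t := by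
  unfold fmap
  rw [ZMod.val_natCast]
  by_cases h : t < 3 * k
  · rw [Nat.mod_eq_of_lt h]
  · obtain ⟨r, rfl⟩ : ∃ r, t = 3 * k + r := ⟨t - 3 * k, by omega⟩
    have hr : r < 3 := by omega
    have h1 : (3 * k + r) % (3 * k) = r := by
      rw [Nat.add_mod_left, Nat.mod_eq_of_lt (by omega)]
    rw [h1]
    have h2 := cc_eq (ext σ) k r hr
    have h3 := cc_eq (ext σ) 0 r hr
    rw [Nat.mul_zero, Nat.zero_add] at h3
    rw [h2, h3]
    have h4 : ext σ k = ext σ 0 := by
      unfold ext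
      rw [dif_pos (by omega), dif_pos (by omega)]
      exact hσ
    rw [h4]

/-- a closed walk gives a homomorphism -/
theorem fmap_hom {H : Set (Set V)} {k : ℕ} (hk : 0 < k) (σ : Fin (k + 1) → (Fin 3 → V))
    (hσ : σ (Fin.last k) = σ 0)
    (hM : ∀ i : Fin k, Mt (EE H) (σ i.castSucc) (σ i.succ) ≠ 0) :
    IsHom (tightCycle k) H (fmap σ) := by
  rintro e ⟨x, rfl⟩
  have : NeZero (3 * k) := ⟨by omega⟩
  have hx : x = ((x.val : ℕ) : ZMod (3 * k)) := (ZMod.natCast_zmod_val x).symm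
  have hlt : x.val < 3 * k := ZMod.val_lt x
  set t := x.val with ht
  have h0 : fmap σ x = cc (ext σ) t := rfl
  have h1 : fmap σ (x + 1) = cc (ext σ) (t + 1) := by
    rw [hx, ← fmap_natCast hk σ hσ (t + 1) (by omega)]
    push_cast
    rfl
  have h2 : fmap σ (x + 2) = cc (ext σ) (t + 2) := by
    rcases Nat.lt_or_ge (t + 2) (3 * k + 2) with h | h
    · rw [hx, ← fmap_natCast hk σ hσ (t + 2) h]
      push_cast
      rfl
    · omega
  rw [Set.image_insert_eq, Set.image_pair, h0, h1, h2]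
  have hi : t / 3 < k := by omega
  have hm := hM ⟨t / 3, hi⟩
  have e1 : ext σ (t / 3) = σ (Fin.castSucc ⟨t / 3, hi⟩) := by
    unfold ext
    rw [dif_pos (by omega)]
    rfl
  have e2 : ext σ (t / 3 + 1) = σ (Fin.succ ⟨t / 3, hi⟩) := by
    unfold ext
    rw [dif_pos (by omega)]
    rfl
  rw [← e1, ← e2] at hm
  unfold Mt at hm
  have hind : ∀ u : Fin 3 → V, ind (EE H) u ≠ 0 → u ∈ EE H := by
    intro u hu
    by_contra hcon
    simp [ind, hcon] at hu
  have q1 := hind _ (left_ne_zero_of_mul (left_ne_zero_of_mul (left_ne_zero_of_mul hm)))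
  have q2 := hind _ (right_ne_zero_of_mul (left_ne_zero_of_mul (left_ne_zero_of_mul hm)))
  have q3 := hind _ (right_ne_zero_of_mul (left_ne_zero_of_mul hm))
  exact cc_edge (ext σ) t q1 q2 q3

theorem fmap_inj {k : ℕ} (hk : 0 < k) {σ σ' : Fin (k + 1) → (Fin 3 → V)}
    (hσ : σ (Fin.last k) = σ 0) (hσ' : σ' (Fin.last k) = σ' 0) (h : fmap σ = fmap σ') :
    σ = σ' := by
  have key : ∀ i : ℕ, i < k → ext σ i = ext σ' i := by
    intro i hi
    funext r
    have h1 : fmap σ ((3 * i + r.val : ℕ) : ZMod (3 * k)) =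
        fmap σ' ((3 * i + r.val : ℕ) : ZMod (3 * k)) := by rw [h]
    have hr := r.2
    rw [fmap_natCast hk σ hσ _ (by omega), fmap_natCast hk σ' hσ' _ (by omega),
      cc_eq _ i r.val r.2, cc_eq _ i r.val r.2] at h1
    exact h1
  have key2 : ∀ i : ℕ, (hi : i < k) → σ ⟨i, by omega⟩ = σ' ⟨i, by omega⟩ := by
    intro i hi
    have := key i hi
    unfold ext at this
    rw [dif_pos (by omega), dif_pos (by omega)] at this
    exact this
  funext i
  rcases Nat.lt_or_ge i.val k with hi | hi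
  · exact key2 i.val hi
  · have : i = Fin.last k := by apply Fin.ext; simp only [Fin.val_last]; omega
    rw [this, hσ, hσ']
    exact key2 0 hk

theorem Mt_le_one {E : Set (Fin 3 → V)} (s u : Fin 3 → V) : Mt E s u = 0 ∨ Mt E s u = 1 := by
  unfold Mt ind
  split_ifs <;> simp

open Classical in
/-- the number of closed walks is at most the number of homomorphisms -/
theorem trace_le (H : Set (Set V)) {k : ℕ} (hk : 0 < k) :
    (MM (EE H) ^ k).trace ≤ (Nat.card {φ : ZMod (3 * k) → V // IsHom (tightCycle k) H φ} : ℝ) := by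
  have : NeZero (3 * k) := ⟨by omega⟩
  set G : Finset (Fin (k + 1) → (Fin 3 → V)) := univ.filter (fun σ =>
    σ (Fin.last k) = σ 0 ∧ ∀ i : Fin k, Mt (EE H) (σ i.castSucc) (σ i.succ) ≠ 0) with hG
  have h1 : (MM (EE H) ^ k).trace = (G.card : ℝ) := by
    rw [Matrix.trace]
    have hd : ∀ s, (MM (EE H) ^ k).diag s = _ := fun s => pow_expand (MM (EE H)) k s s
    rw [Finset.sum_congr rfl fun s _ => hd s]
    rw [Finset.sum_comm, hG, Finset.card_filter]
    push_cast
    refine Finset.sum_congr rfl fun σ _ => ?_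
    rw [Finset.sum_eq_single (σ 0)]
    · by_cases hc : σ (Fin.last k) = σ 0
      · simp only [hc, and_self, if_true, true_and]
        by_cases hall : ∀ i : Fin k, Mt (EE H) (σ i.castSucc) (σ i.succ) ≠ 0
        · rw [if_pos hall]
          refine Finset.prod_eq_one fun i _ => ?_
          rcases Mt_le_one (E := EE H) (σ i.castSucc) (σ i.succ) with h | h
          · exact absurd h (hall i)
          · exact h
        · rw [if_neg hall]
          push Not at hall
          obtain ⟨i, hi⟩ := hall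
          exact Finset.prod_eq_zero (Finset.mem_univ i) hi
      · simp [hc]
    · intro y _ hy
      rw [if_neg (fun h => hy h.1.symm)]
    · intro h; exact absurd (Finset.mem_univ _) h
  rw [h1]
  have h2 : G.card ≤ Nat.card {φ : ZMod (3 * k) → V // IsHom (tightCycle k) H φ} := by
    rw [← Nat.card_eq_finsetCard G]
    refine Nat.card_le_card_of_injective
      (fun σ : G => (⟨fmap σ.1, by
        have := (Finset.mem_filter.mp σ.2).2
        exact fmap_hom hk σ.1 this.1 this.2⟩ :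
        {φ : ZMod (3 * k) → V // IsHom (tightCycle k) H φ})) ?_
    intro σ σ' h
    have h3 := (Finset.mem_filter.mp σ.2).2
    have h4 := (Finset.mem_filter.mp σ'.2).2
    exact Subtype.ext (fmap_inj hk h3.1 h4.1 (congrArg Subtype.val h))
  exact_mod_cast h2

end Pool.Agent.H27.Sid
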