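import Mathlib
import Pool.Agent.H27.Sid.Hom

/-!
Upper bound for the Sidorenko exponent.
-/

open Finset

set_option linter.unusedSectionVars false

namespace Pool.Agent.H27.Sid

variable {V : Type*} [Fintype V]

theorem card_hom_single (H : Set (Set V)) :
    (Nat.card {φ : Fin 3 → V // IsHom (singleEdge 3) H φ} : ℝ) = cE (EE H) := by
  classical
  have h1 : ∀ φ : Fin 3 → V, IsHom (singleEdge 3) H φ ↔ φ ∈ EE H := by
    intro φ
    unfold IsHom singleEdge EE
    simp
  have h2 : Nat.card {φ : Fin 3 → V // IsHom (singleEdge 3) H φ} =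
      (univ.filter (fun φ : Fin 3 → V => φ ∈ EE H)).card := by
    rw [← Nat.card_eq_finsetCard]
    refine Nat.card_congr (Equiv.subtypeEquivRight fun φ => ?_)
    rw [h1]; simp
  rw [h2, Finset.card_filter]
  unfold cE ind
  push_cast
  refine Finset.sum_congr rfl fun u _ => ?_
  by_cases h : u ∈ EE H <;> simp [h]

theorem dens_single (H : Set (Set V)) :
    homDensity (singleEdge 3) H = cE (EE H) / (Fintype.card V : ℝ) ^ 3 := by
  unfold homDensity
  rw [card_hom_single, Nat.card_eq_fintype_card, Nat.card_eq_fintype_card, Fintype.card_fin]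

theorem dens_cycle (H : Set (Set V)) (k : ℕ) :
    homDensity (tightCycle k) H =
      (Nat.card {φ : ZMod (3 * k) → V // IsHom (tightCycle k) H φ} : ℝ) /
        (Fintype.card V : ℝ) ^ (3 * k) := by
  unfold homDensity
  rw [Nat.card_eq_fintype_card (α := V), Nat.card_zmod]

theorem cE_lt [Nonempty V] {H : Set (Set V)} (hH : IsUniform 3 H) :
    cE (EE H) < (Fintype.card V : ℝ) ^ 3 := by
  classical
  obtain ⟨v⟩ := ‹Nonempty V›
  have hv : (fun _ => v : Fin 3 → V) ∉ EE H := by
    intro h
    have h1 := hH _ h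
    rw [image_univ3] at h1
    simp at h1
  have h2 : cE (EE H) < ∑ _u : Fin 3 → V, (1:ℝ) := by
    unfold cE
    refine Finset.sum_lt_sum (fun u _ => ?_) ⟨fun _ => v, Finset.mem_univ _, ?_⟩
    · unfold ind; split_ifs <;> norm_num
    · have : ind (EE H) (fun _ => v) = 0 := by simp [ind, hv]
      rw [this]; norm_num
  simpa using h2

open Classical in
theorem one_le_trace {H : Set (Set V)} {u : Fin 3 → V} (hu : u ∈ EE H) (k : ℕ) :
    (1:ℝ) ≤ (MM (EE H) ^ k).trace := by
  have hM : 1 ≤ (MM (EE H)) u u := by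
    have : ind (EE H) u = 1 := by simp [ind, hu]
    unfold MM Mt
    rw [vec3, this]; norm_num
  have hMnn : ∀ s u, 0 ≤ (MM (EE H)) s u := by
    intro s u
    rcases Mt_le_one (E := EE H) s u with h | h
    · unfold MM; rw [h]
    · unfold MM; rw [h]; norm_num
  have hpow : ∀ j : ℕ, (∀ s u, 0 ≤ (MM (EE H) ^ j) s u) ∧ 1 ≤ (MM (EE H) ^ j) u u := by
    intro j
    induction j with
    | zero =>
      refine ⟨fun s u => ?_, ?_⟩
      · rw [pow_zero, Matrix.one_apply]; split_ifs <;> norm_num
      · rw [pow_zero, Matrix.one_apply_eq]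
    | succ j ih =>
      refine ⟨fun s u => ?_, ?_⟩
      · rw [pow_succ, Matrix.mul_apply]
        exact Finset.sum_nonneg fun a _ => mul_nonneg (ih.1 _ _) (hMnn _ _)
      · rw [pow_succ, Matrix.mul_apply]
        have h5 := Finset.single_le_sum
          (f := fun a => (MM (EE H) ^ j) u a * (MM (EE H)) a u)
          (fun a _ => mul_nonneg (ih.1 _ _) (hMnn _ _)) (Finset.mem_univ u)
        have h6 : (1:ℝ) ≤ (MM (EE H) ^ j) u u * (MM (EE H)) u u := by
          nlinarith [ih.2, hM]
        exact h6.trans h5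
  rw [Matrix.trace]
  exact (hpow k).2.trans (Finset.single_le_sum
    (f := fun s => (MM (EE H) ^ k).diag s) (fun s _ => (hpow k).1 s s)
    (Finset.mem_univ u))

/-- positivity and the main bound, in terms of densities -/
theorem density_bound {H : Set (Set V)} (hH : IsUniform 3 H) (hE : (EE H).Nonempty)
    {η : ℝ} (hη : 0 < η) (J : ℕ) (hJ : 8 < J * η) (m : ℕ) :
    0 < homDensity (singleEdge 3) H ∧ homDensity (singleEdge 3) H < 1 ∧
    (0 < homDensity (tightCycle (2 * J + 2 + m)) H →
      (8 + 48 * J + 3 * m * (1 + η)) * Real.log (homDensity (singleEdge 3) H) ≤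
        Real.log (homDensity (tightCycle (2 * J + 2 + m)) H)) := by
  classical
  have hV : Nonempty V := by
    obtain ⟨u, _⟩ := hE
    exact ⟨u 0⟩
  have hn : (0:ℝ) < (Fintype.card V : ℝ) := by exact_mod_cast Fintype.card_pos
  have hc := cE_pos hE
  have hlt := cE_lt hH
  have h1 : 0 < homDensity (singleEdge 3) H := by rw [dens_single]; positivity
  have h2 : homDensity (singleEdge 3) H < 1 := by
    rw [dens_single, div_lt_one (by positivity)]; exact hlt
  refine ⟨h1, h2, fun h3 => ?_⟩
  set l := Real.log (Fintype.card V) with hl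
  set D := 3 * l - Real.log (cE (EE H)) with hD
  have hlogK : Real.log (homDensity (singleEdge 3) H) = - D := by
    rw [dens_single, Real.log_div hc.ne' (by positivity), Real.log_pow, hD, hl]
    push_cast; ring
  have hDpos : 0 < D := by
    have := Real.log_neg h1 h2
    linarith
  set k := 2 * J + 2 + m with hk
  have hkpos : 0 < k := by omega
  have hmain := main_bound' hE hl hD hη hDpos J hJ m
  have htr : ∑ s, ∑ u, ((fwd (EE H))^[J + 1] idw) s u * ((bwd (EE H))^[m + J + 1] idw) s u =
      (MM (EE H) ^ k).trace := by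
    rw [sum_eq_trace]
    congr 2
    omega
  rw [htr] at hmain
  rw [dens_cycle] at h3 ⊢
  set c : ℝ := (Nat.card {φ : ZMod (3 * k) → V // IsHom (tightCycle k) H φ} : ℝ) with hcdef
  have hcpos : 0 < c := by
    by_contra hcon
    push Not at hcon
    have : c / (Fintype.card V : ℝ) ^ (3 * k) ≤ 0 :=
      div_nonpos_of_nonpos_of_nonneg hcon (by positivity)
    linarith
  have hle := trace_le H hkpos
  rw [← hcdef] at hle
  have hlog : Real.log (MM (EE H) ^ k).trace ≤ Real.log c := by
    rcases lt_or_ge 0 (MM (EE H) ^ k).trace with h4 | h4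
    · exact Real.log_le_log h4 hle
    · -- the trace is a nonnegative integer, at least one
      exfalso
      obtain ⟨u, hu⟩ := hE
      have h7 := one_le_trace hu k
      linarith
  rw [hlogK, Real.log_div hcpos.ne' (by positivity), Real.log_pow]
  have hk' : ((3 * k : ℕ) : ℝ) = 6 + 6 * J + 3 * m := by
    rw [hk]; push_cast; ring
  rw [hk']
  linarith

/-- every exponent of the defining set is bounded -/
theorem mem_le {η : ℝ} (hη : 0 < η) (J : ℕ) (hJ : 8 < J * η) (m : ℕ) {s : ℝ}
    (hs : s ∈ {s : ℝ | 0 ≤ s ∧ ∃ (V : Type) (_ : Finite V) (H : Set (Set V)), IsUniform 3 H ∧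
      homDensity (tightCycle (2 * J + 2 + m)) H = homDensity (singleEdge 3) H ^ s ∧
        0 < homDensity (tightCycle (2 * J + 2 + m)) H}) :
    s ≤ 8 + 48 * J + 3 * m * (1 + η) := by
  obtain ⟨hs0, V, hV, H, hH, heq, hpos⟩ := hs
  have := Fintype.ofFinite V
  rcases (EE H).eq_empty_or_nonempty with he | hE
  · have h1 : homDensity (singleEdge 3) H = 0 := by
      rw [dens_single, he]
      unfold cE ind
      simp
    rcases hs0.eq_or_lt with h0 | h0
    · rw [← h0]; positivity
    · rw [h1, Real.zero_rpow h0.ne'] at heq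
      linarith
  · obtain ⟨h1, h2, h3⟩ := density_bound hH hE hη J hJ m
    have h4 := h3 hpos
    rw [heq, Real.log_rpow h1] at h4
    have h5 := Real.log_neg h1 h2
    by_contra hcon
    push Not at hcon
    have := mul_lt_mul_of_neg_right hcon h5
    linarith

theorem exponent_le {η : ℝ} (hη : 0 < η) (J : ℕ) (hJ : 8 < J * η) (m : ℕ) :
    sidorenkoExponent 3 (tightCycle (2 * J + 2 + m)) ≤ 8 + 48 * J + 3 * m * (1 + η) :=
  Real.sSup_le (fun _ hs => mem_le hη J hJ m hs) (by positivity)

end Pool.Agent.H27.Sid
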