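import Mathlib
import Pool.Agent.H27.Sid.Upper

/-!
Lower bound for the Sidorenko exponent and the limit.
-/

open Finset

set_option linter.unusedSectionVars false

namespace Pool.Agent.H27.Sid

/-- triples of distinct elements with sum zero -/
def HH (N : ℕ) : Set (Set (ZMod N)) :=
  {e | ∃ s : Finset (ZMod N), (s : Set (ZMod N)) = e ∧ s.card = 3 ∧ ∑ x ∈ s, x = 0}

theorem HH_uniform (N : ℕ) : IsUniform 3 (HH N) := by
  rintro e ⟨s, rfl, hs, _⟩
  rw [Set.ncard_coe_finset]
  exact hs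

theorem mem_EE_HH {N : ℕ} {u : Fin 3 → ZMod N} :
    u ∈ EE (HH N) ↔ Function.Injective u ∧ ∑ i, u i = 0 := by
  classical
  have himg : ((univ.image u : Finset (ZMod N)) : Set (ZMod N)) = u '' Set.univ := by simp
  constructor
  · rintro ⟨s, hs, h3, h0⟩
    have hs' : s = univ.image u := by
      apply Finset.coe_injective
      rw [hs, himg]
    have hinj : Function.Injective u := by
      rw [hs'] at h3
      have : (univ.image u).card = (univ : Finset (Fin 3)).card := by
        rw [h3]; rfl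
      exact fun a b hab => Finset.card_image_iff.mp this (Finset.mem_coe.mpr (Finset.mem_univ a))
        (Finset.mem_coe.mpr (Finset.mem_univ b)) hab
    refine ⟨hinj, ?_⟩
    rw [hs', Finset.sum_image (fun a _ b _ h => hinj h)] at h0
    exact h0
  · rintro ⟨hinj, h0⟩
    refine ⟨univ.image u, himg, ?_, ?_⟩
    · rw [Finset.card_image_of_injective _ hinj]; rfl
    · rw [Finset.sum_image (fun a _ b _ h => hinj h)]; exact h0

theorem hom_rec {N ℓ : ℕ} {φ : ZMod (3 * ℓ) → ZMod N} (h : IsHom (tightCycle ℓ) (HH N) φ)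
    (i : ZMod (3 * ℓ)) : φ i + φ (i + 1) + φ (i + 2) = 0 := by
  have h1 := h {i, i + 1, i + 2} ⟨i, rfl⟩
  rw [Set.image_insert_eq, Set.image_pair] at h1
  have h2 : ![φ i, φ (i + 1), φ (i + 2)] ∈ EE (HH N) := by
    unfold EE
    rw [Set.mem_ofPred_eq]
    convert h1 using 1
    ext x
    simp only [Set.image_univ, Set.mem_range, Set.mem_insert_iff, Set.mem_singleton_iff]
    constructor
    · rintro ⟨j, rfl⟩
      fin_cases j <;> simp
    · rintro (rfl | rfl | rfl)
      · exact ⟨0, rfl⟩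
      · exact ⟨1, rfl⟩
      · exact ⟨2, rfl⟩
  have h3 := (mem_EE_HH.mp h2).2
  rw [Fin.sum_univ_three] at h3
  exact h3

theorem card_hom_le {N ℓ : ℕ} [NeZero N] (hℓ : 0 < ℓ) :
    Nat.card {φ : ZMod (3 * ℓ) → ZMod N // IsHom (tightCycle ℓ) (HH N) φ} ≤ N ^ 2 := by
  have : NeZero (3 * ℓ) := ⟨by omega⟩
  have h1 : Nat.card {φ : ZMod (3 * ℓ) → ZMod N // IsHom (tightCycle ℓ) (HH N) φ} ≤
      Nat.card (ZMod N × ZMod N) := by
    refine Nat.card_le_card_of_injective (fun φ => (φ.1 0, φ.1 1)) ?_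
    rintro ⟨φ, hφ⟩ ⟨ψ, hψ⟩ h
    simp only [Prod.mk.injEq] at h
    apply Subtype.ext
    have key : ∀ t : ℕ, φ (t : ZMod (3 * ℓ)) = ψ (t : ZMod (3 * ℓ)) ∧
        φ ((t + 1 : ℕ) : ZMod (3 * ℓ)) = ψ ((t + 1 : ℕ) : ZMod (3 * ℓ)) := by
      intro t
      induction t with
      | zero => simpa using h
      | succ t ih =>
        refine ⟨ih.2, ?_⟩
        have e1 := hom_rec hφ (t : ZMod (3 * ℓ))
        have e2 := hom_rec hψ (t : ZMod (3 * ℓ))
        have c1 : ((t + 1 : ℕ) : ZMod (3 * ℓ)) = (t : ZMod (3 * ℓ)) + 1 := by push_cast; rfl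
        have c2 : ((t + 1 + 1 : ℕ) : ZMod (3 * ℓ)) = (t : ZMod (3 * ℓ)) + 2 := by
          push_cast; ring
        rw [c1] at ih
        rw [c2]
        rw [ih.1, ih.2] at e1
        exact add_left_cancel (e1.trans e2.symm)
    funext x
    have := (key x.val).1
    rw [ZMod.natCast_zmod_val] at this
    exact this
  rw [Nat.card_prod, Nat.card_zmod] at h1
  rw [sq]; exact h1

theorem cE_HH {N : ℕ} [NeZero N] :
    (N : ℝ) ^ 2 - 3 * N ≤ cE (EE (HH N)) := by
  classical
  set B : Finset (ZMod N × ZMod N) := univ.filter (fun x =>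
    x.1 = x.2 ∨ x.2 = - x.1 - x.1 ∨ x.1 = - x.2 - x.2) with hB
  have hBcard : B.card ≤ 3 * N := by
    have h1 : B ⊆ (univ.image (fun a : ZMod N => (a, a))) ∪
        ((univ.image (fun a : ZMod N => (a, - a - a))) ∪
          (univ.image (fun a : ZMod N => (- a - a, a)))) := by
      rintro ⟨a, b⟩ hx
      rw [hB, Finset.mem_filter] at hx
      simp only [Finset.mem_union, Finset.mem_image, Finset.mem_univ, true_and, Prod.mk.injEq]
      rcases hx.2 with h | h | h
      · exact Or.inl ⟨a, rfl, h⟩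
      · exact Or.inr (Or.inl ⟨a, rfl, h.symm⟩)
      · exact Or.inr (Or.inr ⟨b, h.symm, rfl⟩)
    have hN : (univ : Finset (ZMod N)).card = N := by rw [Finset.card_univ, ZMod.card]
    have h2 := (Finset.card_le_card h1).trans (Finset.card_union_le _ _)
    have h3 := Finset.card_union_le (univ.image (fun a : ZMod N => (a, - a - a)))
      (univ.image (fun a : ZMod N => (- a - a, a)))
    have h4 : (univ.image (fun a : ZMod N => (a, a))).card ≤ N :=
      Finset.card_image_le.trans hN.le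
    have h5 : (univ.image (fun a : ZMod N => (a, - a - a))).card ≤ N :=
      Finset.card_image_le.trans hN.le
    have h6 : (univ.image (fun a : ZMod N => (- a - a, a))).card ≤ N :=
      Finset.card_image_le.trans hN.le
    omega
  have hcE : cE (EE (HH N)) = ((univ.filter (fun u : Fin 3 → ZMod N =>
      u ∈ EE (HH N))).card : ℝ) := by
    rw [Finset.card_filter]
    unfold cE ind
    push_cast
    refine Finset.sum_congr rfl fun u _ => ?_
    by_cases h : u ∈ EE (HH N) <;> simp [h]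
  have hle : (Bᶜ).card ≤ (univ.filter (fun u : Fin 3 → ZMod N => u ∈ EE (HH N))).card := by
    refine Finset.card_le_card_of_injOn (fun x => ![x.1, x.2, - x.1 - x.2]) ?_ ?_
    · rintro ⟨a, b⟩ hx
      have hx' : ¬ (a = b ∨ b = - a - a ∨ a = - b - b) := by
        intro hcon
        have : (a, b) ∈ B := by rw [hB, Finset.mem_filter]; exact ⟨Finset.mem_univ _, hcon⟩
        exact (Finset.mem_compl.mp (Finset.mem_coe.mp hx)) this
      push Not at hx'
      obtain ⟨g1, g2, g3⟩ := hx'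
      rw [Finset.mem_coe, Finset.mem_filter]
      refine ⟨Finset.mem_univ _, mem_EE_HH.mpr ⟨?_, ?_⟩⟩
      · have q1 : a ≠ - a - b := fun h => g2 (by linear_combination h)
        have q2 : b ≠ - a - b := fun h => g3 (by linear_combination h)
        intro i j hij
        fin_cases i <;> fin_cases j <;> simp_all
      · rw [Fin.sum_univ_three]
        simp
    · rintro ⟨a, b⟩ _ ⟨a', b'⟩ _ h
      have h0 := congrFun h 0
      have h1 := congrFun h 1
      simp at h0 h1
      rw [h0, h1]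
  have hcompl : (Bᶜ).card = N ^ 2 - B.card := by
    rw [Finset.card_compl, Fintype.card_prod, ZMod.card, sq]
  have hBle : B.card ≤ N ^ 2 := by
    have := Finset.card_le_univ B
    rw [Fintype.card_prod, ZMod.card] at this
    rw [sq]; exact this
  rw [hcE]
  have h7 : ((N ^ 2 - B.card : ℕ) : ℝ) ≤ ((univ.filter (fun u : Fin 3 → ZMod N =>
      u ∈ EE (HH N))).card : ℝ) := by
    rw [← hcompl]; exact_mod_cast hle
  rw [Nat.cast_sub hBle] at h7
  push_cast at h7
  have h8 : (B.card : ℝ) ≤ 3 * N := by exact_mod_cast hBcard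
  linarith

/-- the exponents given by the examples -/
theorem exists_exponent {ℓ : ℕ} (hℓ : 0 < ℓ) (j : ℕ) (hj : 3 ≤ j) :
    ∃ s ∈ {s : ℝ | 0 ≤ s ∧ ∃ (V : Type) (_ : Finite V) (H : Set (Set V)), IsUniform 3 H ∧
      homDensity (tightCycle ℓ) H = homDensity (singleEdge 3) H ^ s ∧
        0 < homDensity (tightCycle ℓ) H}, (3 * (ℓ : ℝ) - 2) * (j / (j + 1)) ≤ s := by
  classical
  set N : ℕ := 2 ^ j with hN
  have hN8 : 8 ≤ N := by
    calc 8 = 2 ^ 3 := by norm_num
      _ ≤ 2 ^ j := Nat.pow_le_pow_right (by norm_num) hj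
  have : NeZero N := ⟨by omega⟩
  have hNr : (8:ℝ) ≤ (N : ℝ) := by exact_mod_cast hN8
  have hcard : (Fintype.card (ZMod N) : ℝ) = N := by rw [ZMod.card]
  have hc := cE_HH (N := N)
  have hcpos : 0 < cE (EE (HH N)) := by nlinarith
  have hE : (EE (HH N)).Nonempty := by
    by_contra hcon
    rw [Set.not_nonempty_iff_eq_empty] at hcon
    rw [hcon] at hcpos
    unfold cE ind at hcpos
    simp at hcpos
  -- density of the single edge
  have hK := dens_single (HH N)
  rw [hcard] at hK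
  have hKpos : 0 < homDensity (singleEdge 3) (HH N) := by rw [hK]; positivity
  have hKlt : homDensity (singleEdge 3) (HH N) < 1 := by
    rw [hK, div_lt_one (by positivity)]
    have := cE_lt (HH_uniform N)
    rw [hcard] at this
    exact this
  have hKlow : 1 / (2 * (N : ℝ)) ≤ homDensity (singleEdge 3) (HH N) := by
    rw [hK, div_le_div_iff₀ (by positivity) (by positivity)]
    nlinarith [sq_nonneg ((N:ℝ) - 8)]
  -- density of the cycle
  have hC := dens_cycle (HH N) ℓ
  rw [hcard] at hC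
  have hhom := card_hom_le (N := N) hℓ
  set c : ℝ := (Nat.card {φ : ZMod (3 * ℓ) → ZMod N // IsHom (tightCycle ℓ) (HH N) φ} : ℝ)
    with hcdef
  have hcle : c ≤ (N : ℝ) ^ 2 := by rw [hcdef]; exact_mod_cast hhom
  have hcpos' : 0 < c := by
    have h1 := trace_le (HH N) hℓ
    rw [← hcdef] at h1
    refine lt_of_lt_of_le ?_ h1
    obtain ⟨u, hu⟩ := hE
    exact lt_of_lt_of_le one_pos (one_le_trace hu ℓ)
  have hCpos : 0 < homDensity (tightCycle ℓ) (HH N) := by rw [hC]; positivity
  have hlogK := Real.log_neg hKpos hKlt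
  set s : ℝ := Real.log (homDensity (tightCycle ℓ) (HH N)) /
    Real.log (homDensity (singleEdge 3) (HH N)) with hs
  have hlogN : Real.log N = j * Real.log 2 := by
    rw [hN]; push_cast; rw [Real.log_pow]
  have hlog2 : 0 < Real.log 2 := Real.log_pos (by norm_num)
  have hjr : (3:ℝ) ≤ j := by exact_mod_cast hj
  have hℓr : (1:ℝ) ≤ ℓ := by exact_mod_cast hℓ
  have hup : Real.log (homDensity (tightCycle ℓ) (HH N)) ≤ - ((3 * ℓ - 2) * (j * Real.log 2)) := by
    rw [hC, Real.log_div hcpos'.ne' (by positivity), Real.log_pow]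
    have h1 : Real.log c ≤ Real.log ((N : ℝ) ^ 2) := Real.log_le_log hcpos' hcle
    rw [Real.log_pow, hlogN] at h1
    rw [hlogN]
    push_cast at h1 ⊢
    linarith
  have hlow : - ((j + 1) * Real.log 2) ≤ Real.log (homDensity (singleEdge 3) (HH N)) := by
    have h1 : Real.log (1 / (2 * (N : ℝ))) ≤ Real.log (homDensity (singleEdge 3) (HH N)) :=
      Real.log_le_log (by positivity) hKlow
    rw [Real.log_div one_ne_zero (by positivity), Real.log_one,
      Real.log_mul (by norm_num) (by positivity), hlogN] at h1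
    linarith
  have hsge : (3 * (ℓ : ℝ) - 2) * (j / (j + 1)) ≤ s := by
    rw [hs, le_div_iff_of_neg hlogK]
    have h2 : 0 ≤ (3 * (ℓ : ℝ) - 2) * (j / (j + 1)) :=
      mul_nonneg (by linarith) (by positivity)
    have h3 : (3 * (ℓ : ℝ) - 2) * (j / (j + 1)) * (- ((j + 1) * Real.log 2)) ≤
        (3 * (ℓ : ℝ) - 2) * (j / (j + 1)) * Real.log (homDensity (singleEdge 3) (HH N)) :=
      mul_le_mul_of_nonneg_left hlow h2
    have h4 : (3 * (ℓ : ℝ) - 2) * (j / (j + 1)) * (- ((j + 1) * Real.log 2)) =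
        - ((3 * ℓ - 2) * (j * Real.log 2)) := by
      field_simp
    linarith
  have hs0 : 0 ≤ s := le_trans (mul_nonneg (by linarith) (by positivity)) hsge
  refine ⟨s, ⟨hs0, ZMod N, inferInstance, HH N, HH_uniform N, ?_, hCpos⟩, hsge⟩
  rw [Real.rpow_def_of_pos hKpos, hs, mul_div_cancel₀ _ hlogK.ne, Real.exp_log hCpos]

/-- lower bound -/
theorem le_exponent {ℓ : ℕ} (hℓ : 20 ≤ ℓ) :
    3 * (ℓ : ℝ) - 2 ≤ sidorenkoExponent 3 (tightCycle ℓ) := by
  have hbdd : BddAbove {s : ℝ | 0 ≤ s ∧ ∃ (V : Type) (_ : Finite V) (H : Set (Set V)),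
      IsUniform 3 H ∧ homDensity (tightCycle ℓ) H = homDensity (singleEdge 3) H ^ s ∧
        0 < homDensity (tightCycle ℓ) H} := by
    obtain ⟨m, rfl⟩ : ∃ m, ℓ = 2 * 9 + 2 + m := ⟨ℓ - 20, by omega⟩
    refine ⟨8 + 48 * (9 : ℕ) + 3 * m * (1 + 1), fun s hs => ?_⟩
    exact mem_le one_pos 9 (by norm_num) m hs
  by_contra hcon
  push Not at hcon
  set B := sidorenkoExponent 3 (tightCycle ℓ) with hB
  have hall : ∀ j : ℕ, 3 ≤ j → (3 * (ℓ : ℝ) - 2) * (j / (j + 1)) ≤ B := by
    intro j hj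
    obtain ⟨s, hs, hle⟩ := exists_exponent (ℓ := ℓ) (by omega) j hj
    exact hle.trans (le_csSup hbdd hs)
  -- (a) (j/(j+1)) ≤ B < a
  set a : ℝ := 3 * (ℓ : ℝ) - 2 with ha
  have hapos : 0 < a := by
    have : (20:ℝ) ≤ ℓ := by exact_mod_cast hℓ
    rw [ha]; linarith
  obtain ⟨j, hj⟩ := exists_nat_gt (a / (a - B) + 3)
  have hδ : 0 < a - B := by linarith
  have h1 : a / (a - B) < j := by linarith
  have h3 : (3:ℝ) < j := by
    have : 0 < a / (a - B) := by positivity
    linarith
  have h2 := hall j (by exact_mod_cast h3.le)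
  rw [div_lt_iff₀ hδ] at h1
  have hj1 : (0:ℝ) < j + 1 := by linarith
  have h4 : a * (j / (j + 1)) = a * j / (j + 1) := by ring
  rw [h4, div_le_iff₀ hj1] at h2
  nlinarith

end Pool.Agent.H27.Sid
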