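import Mathlib
import Pool.Agent.H27.Sid.Lower

/-!
The limit.
-/

open Filter Topology

namespace Pool.Agent.H27.Sid

theorem limit : Tendsto (fun ℓ : ℕ => sidorenkoExponent 3 (tightCycle ℓ) / ℓ) atTop (𝓝 3) := by
  rw [Metric.tendsto_atTop]
  intro ε hε
  -- parameters
  set η : ℝ := ε / 6 with hη
  have hηpos : 0 < η := by positivity
  obtain ⟨J, hJ⟩ := exists_nat_gt (8 / η)
  have hJ' : 8 < J * η := by rwa [div_lt_iff₀ hηpos] at hJ
  obtain ⟨L, hL⟩ := exists_nat_gt ((8 + 48 * (J : ℝ) + 2) / (ε / 2) + (2 * J + 2) + 20)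
  refine ⟨L, fun ℓ hℓ => ?_⟩
  have hℓr : (L : ℝ) ≤ ℓ := by exact_mod_cast hℓ
  have hJ0 : (0:ℝ) ≤ J := by positivity
  have hq : 0 ≤ (8 + 48 * (J : ℝ) + 2) / (ε / 2) := by positivity
  have h20 : 20 ≤ ℓ := by
    have : (20:ℝ) ≤ ℓ := by linarith
    exact_mod_cast this
  have hJℓ : 2 * J + 2 ≤ ℓ := by
    have : (2 * (J : ℝ) + 2) ≤ ℓ := by linarith
    exact_mod_cast this
  have hℓpos : (0:ℝ) < ℓ := by
    have : (20:ℝ) ≤ ℓ := by exact_mod_cast h20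
    linarith
  obtain ⟨m, hm⟩ : ∃ m, ℓ = 2 * J + 2 + m := ⟨ℓ - (2 * J + 2), by omega⟩
  have hup : sidorenkoExponent 3 (tightCycle ℓ) ≤ 8 + 48 * J + 3 * m * (1 + η) := by
    rw [hm]; exact exponent_le hηpos J hJ' m
  have hlow := le_exponent h20
  have hmle : (m : ℝ) ≤ ℓ := by
    have : m ≤ ℓ := by omega
    exact_mod_cast this
  have hbig : (8 + 48 * (J : ℝ) + 2) < ε / 2 * ℓ := by
    have h1 : (8 + 48 * (J : ℝ) + 2) / (ε / 2) < ℓ := by linarith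
    rw [div_lt_iff₀ (by positivity)] at h1
    linarith
  rw [Real.dist_eq, abs_lt]
  constructor
  · have h2 : 3 - ε < sidorenkoExponent 3 (tightCycle ℓ) / ℓ := by
      rw [lt_div_iff₀ hℓpos]
      nlinarith
    linarith
  · have h2 : sidorenkoExponent 3 (tightCycle ℓ) / ℓ < 3 + ε := by
      rw [div_lt_iff₀ hℓpos]
      have h3 : 3 * (m : ℝ) * (1 + η) ≤ 3 * ℓ * (1 + η) := by
        apply mul_le_mul_of_nonneg_right _ (by linarith)
        linarith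
      have h4 : 3 * (ℓ : ℝ) * (1 + η) = 3 * ℓ + ε / 2 * ℓ := by rw [hη]; ring
      nlinarith
    linarith

end Pool.Agent.H27.Sid
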